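import Pool.Agent.T9h46.MB.F
import Pool.Agent.T9h58.MB.Spec

/-!
# The form of the virtual matching is nonnegative up to a small error
-/

set_option autoImplicit false

namespace Pool.Agent.T9h46.MB

open Pool.Agent.T9h19.MB

variable {U L R J : Type} [Fintype U] [DecidableEq U] [Fintype L] [DecidableEq L]
  [Fintype R] [DecidableEq R] [Fintype J] [DecidableEq J]

theorem gadget_psd (D : Dat U L R J) (θ : J → ℝ) (ℓ : Finset (U × Bool) → ℝ) (N d : ℕ)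
    (hN : 20 * (d + 1) ≤ N) (hm : Mom D θ N ℓ) (hθ : ∀ j, (4 * d + 4 : ℝ) ≤ θ j)
    (δ : ℝ) (hδ0 : 0 ≤ δ) (hδ1 : δ ≤ 1) (hT : ∀ j, |(D.cnt j : ℝ) - θ j| ≤ δ)
    (c : Finset (U × Bool) × Finset (L × R) → ℝ)
    (hc : ∀ z, c z ≠ 0 → z.1.card ≤ 2 * d ∧ z.2.card ≤ d ∧ ∀ p ∈ z.2, D.ok p.1 p.2) :
    0 ≤ ∑ z, ∑ z', c z * c z' * (ℓ (z.1 ∪ z'.1 ∪ D.rows (z.2 ∪ z'.2)) * D.wt θ (z.2 ∪ z'.2)) +
      δ * 2 ^ (100 * (d + 1) * sz U L R) * ∑ z, c z ^ 2 := by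
  refine gadget_psd_of ?_ D θ ℓ N d hN hm hθ δ hδ0 hδ1 hT c hc
  intro ι _ _ M hM K _ τ hinv hMτ h0 h1 v
  exact Pool.Agent.T9h58.MB.spectral M hM τ hinv hMτ h0 h1 v

end Pool.Agent.T9h46.MB
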