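import Pool.Agent.T9h19.MB.Defs

/-!
# Weights of partial matchings
-/

set_option autoImplicit false
set_option linter.unusedSectionVars false

namespace Pool.Agent.T9h46.MB

open Pool.Agent.T9h19.MB Finset

variable {U L R J : Type} [Fintype U] [DecidableEq U] [Fintype L] [DecidableEq L]
  [Fintype R] [DecidableEq R] [Fintype J] [DecidableEq J]

theorem ff_succ (x : ℝ) (k : ℕ) : ff x (k + 1) = ff x k * (x - k) := by
  unfold ff; rw [prod_range_succ]

theorem ff_zero (x : ℝ) : ff x 0 = 1 := by unfold ff; simp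

theorem one_le_ff {x : ℝ} {m : ℕ} (h : (m : ℝ) + 1 ≤ x) {k : ℕ} (hk : k ≤ m) : 1 ≤ ff x k := by
  induction k with
  | zero => rw [ff_zero]
  | succ k ih =>
    rw [ff_succ]
    have h1 := ih (by omega)
    have h2 : (k : ℝ) + 1 ≤ m := by exact_mod_cast hk
    have h3 : 1 ≤ x - k := by linarith
    calc (1 : ℝ) = 1 * 1 := by ring
      _ ≤ _ := mul_le_mul h1 h3 (by norm_num) (by linarith)

/-- The number of pairs of colour `j`. -/
def cnj (D : Dat U L R J) (Q : Finset (L × R)) (j : J) : ℕ :=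
  (Q.filter fun p => D.cl p.1 = j).card

theorem cnj_le (D : Dat U L R J) (Q : Finset (L × R)) (j : J) : cnj D Q j ≤ Q.card :=
  card_le_card (filter_subset _ _)

theorem Mat.mono {D : Dat U L R J} {P Q : Finset (L × R)} (h : P ⊆ Q) (hQ : D.Mat Q) : D.Mat P :=
  ⟨fun p hp => hQ.1 p (h hp), fun p hp q hq => hQ.2 p (h hp) q (h hq)⟩

theorem wt_of_mat {D : Dat U L R J} {θ : J → ℝ} {Q : Finset (L × R)} (h : D.Mat Q) :
    D.wt θ Q = ∏ j, (ff (θ j) (cnj D Q j))⁻¹ := by
  unfold Dat.wt cnj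
  rw [if_pos h]

theorem wt_of_not {D : Dat U L R J} {θ : J → ℝ} {Q : Finset (L × R)} (h : ¬ D.Mat Q) :
    D.wt θ Q = 0 := by
  unfold Dat.wt
  rw [if_neg h]

theorem wt_nonneg {D : Dat U L R J} {θ : J → ℝ} {m : ℕ} (hθ : ∀ j, (m : ℝ) + 1 ≤ θ j)
    {Q : Finset (L × R)} (hQ : Q.card ≤ m) : 0 ≤ D.wt θ Q := by
  by_cases h : D.Mat Q
  · rw [wt_of_mat h]
    exact prod_nonneg fun j _ => inv_nonneg.2 (zero_le_one.trans
      (one_le_ff (hθ j) ((cnj_le D Q j).trans hQ)))
  · rw [wt_of_not h]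

theorem wt_le_one {D : Dat U L R J} {θ : J → ℝ} {m : ℕ} (hθ : ∀ j, (m : ℝ) + 1 ≤ θ j)
    {Q : Finset (L × R)} (hQ : Q.card ≤ m) : D.wt θ Q ≤ 1 := by
  by_cases h : D.Mat Q
  · rw [wt_of_mat h]
    refine prod_le_one (fun j _ => inv_nonneg.2 (zero_le_one.trans
      (one_le_ff (hθ j) ((cnj_le D Q j).trans hQ)))) fun j _ => ?_
    exact inv_le_one_of_one_le₀ (one_le_ff (hθ j) ((cnj_le D Q j).trans hQ))
  · rw [wt_of_not h]; exact zero_le_one

/-- Adding a pair of new tokens. -/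
theorem mat_insert {D : Dat U L R J} {Q : Finset (L × R)} (h : D.Mat Q) {a : L} {b : R}
    (hab : D.cl a = D.cr b) (ha : ∀ q ∈ Q, q.1 ≠ a) (hb : ∀ q ∈ Q, q.2 ≠ b) :
    D.Mat (insert (a, b) Q) := by
  constructor
  · intro p hp
    rcases mem_insert.1 hp with rfl | hp
    · exact hab
    · exact h.1 p hp
  · intro p hp q hq
    rcases mem_insert.1 hp with rfl | hp <;> rcases mem_insert.1 hq with rfl | hq
    · simp
    · exact ⟨fun e => absurd e.symm (ha q hq), fun e => absurd e.symm (hb q hq)⟩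
    · exact ⟨fun e => absurd e (ha p hp), fun e => absurd e (hb p hp)⟩
    · exact h.2 p hp q hq

theorem wt_insert {D : Dat U L R J} {θ : J → ℝ} {Q : Finset (L × R)} (h : D.Mat Q) {a : L} {b : R}
    (hab : D.cl a = D.cr b) (ha : ∀ q ∈ Q, q.1 ≠ a) (hb : ∀ q ∈ Q, q.2 ≠ b) :
    D.wt θ (insert (a, b) Q) = D.wt θ Q * (θ (D.cl a) - cnj D Q (D.cl a))⁻¹ := by
  rw [wt_of_mat (mat_insert h hab ha hb), wt_of_mat h]
  have hnot : (a, b) ∉ Q := fun hh => ha _ hh rfl
  have e1 : ∀ j, (ff (θ j) (cnj D (insert (a, b) Q) j))⁻¹ =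
      (ff (θ j) (cnj D Q j))⁻¹ * (if D.cl a = j then (θ (D.cl a) - cnj D Q (D.cl a))⁻¹ else 1) := by
    intro j
    unfold cnj
    rw [filter_insert]
    by_cases hj : D.cl a = j
    · rw [if_pos hj, if_pos hj, card_insert_of_notMem (fun hh => hnot (mem_filter.1 hh).1),
        ff_succ, mul_inv, hj]
    · rw [if_neg hj, if_neg hj, mul_one]
  simp only [e1]
  rw [prod_mul_distrib, prod_ite_eq, if_pos (mem_univ _)]

theorem lits_card (D : Dat U L R J) (a : L) : (D.lits a).card ≤ 2 := by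
  unfold Dat.lits
  split
  · simp
  · exact card_le_two

theorem rows_card (D : Dat U L R J) (Q : Finset (L × R)) : (D.rows Q).card ≤ 2 * Q.card := by
  unfold Dat.rows
  refine card_biUnion_le.trans ?_
  refine (sum_le_card_nsmul _ _ 2 fun p _ => lits_card D p.1).trans ?_
  rw [smul_eq_mul, mul_comm]

theorem rows_insert (D : Dat U L R J) (a : L) (b : R) (Q : Finset (L × R)) :
    D.rows (insert (a, b) Q) = D.lits a ∪ D.rows Q := by
  unfold Dat.rows
  rw [biUnion_insert]

theorem rows_union (D : Dat U L R J) (P Q : Finset (L × R)) :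
    D.rows (P ∪ Q) = D.rows P ∪ D.rows Q := by
  unfold Dat.rows
  rw [union_biUnion]

theorem lits_subset_rows (D : Dat U L R J) {Q : Finset (L × R)} {q : L × R} (hq : q ∈ Q) :
    D.lits q.1 ⊆ D.rows Q := by
  unfold Dat.rows
  exact subset_biUnion_of_mem (fun p : L × R => D.lits p.1) hq

theorem Mat.injOn_fst {D : Dat U L R J} {Q : Finset (L × R)} (h : D.Mat Q) :
    Set.InjOn Prod.fst (Q : Set (L × R)) := fun p hp q hq e =>
  Prod.ext e ((h.2 p hp q hq).1 e)

theorem Mat.injOn_snd {D : Dat U L R J} {Q : Finset (L × R)} (h : D.Mat Q) :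
    Set.InjOn Prod.snd (Q : Set (L × R)) := fun p hp q hq e =>
  Prod.ext ((h.2 p hp q hq).2 e) e

/-- The value of the conjunction. -/
noncomputable def G (D : Dat U L R J) (θ : J → ℝ) (ℓ : Finset (U × Bool) → ℝ)
    (S : Finset (U × Bool)) (Q : Finset (L × R)) : ℝ := ℓ (S ∪ D.rows Q) * D.wt θ Q

/-- The relation of the right tokens. -/
theorem right_rel {D : Dat U L R J} {θ : J → ℝ} {ℓ : Finset (U × Bool) → ℝ} {N m : ℕ}
    (hm : Mom D θ N ℓ) (hθ : ∀ j, (m : ℝ) + 1 ≤ θ j) (S : Finset (U × Bool))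
    (Q : Finset (L × R)) (hQ : ∀ q ∈ Q, D.ok q.1 q.2) (hc : Q.card ≤ m)
    (hN : S.card + 2 * Q.card ≤ N) (b : R) (hb : b ∈ D.Rs) :
    ∑ a ∈ D.Ls.filter (fun a => D.cl a = D.cr b), G D θ ℓ S (insert (a, b) Q) = G D θ ℓ S Q := by
  by_cases hM : D.Mat Q
  swap
  · have h1 : G D θ ℓ S Q = 0 := by unfold G; rw [wt_of_not hM, mul_zero]
    rw [h1]
    refine sum_eq_zero fun a _ => ?_
    unfold G
    rw [wt_of_not (fun h => hM (Mat.mono (subset_insert _ _) h)), mul_zero]
  by_cases hbq : ∃ q ∈ Q, q.2 = b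
  · obtain ⟨q, hq, rfl⟩ := hbq
    rw [sum_eq_single q.1]
    · rw [insert_eq_of_mem (show (q.1, q.2) ∈ Q from hq)]
    · intro a ha hne
      unfold G
      rw [wt_of_not, mul_zero]
      intro h
      have := h.2 (a, q.2) (mem_insert_self _ _) q (mem_insert_of_mem hq)
      exact hne (this.2 rfl)
    · intro h
      exact absurd (mem_filter.2 ⟨(hQ q hq).1, (hQ q hq).2.2⟩) h
  · push Not at hbq
    have hcard : (S ∪ D.rows Q).card ≤ N := by
      refine (card_union_le _ _).trans ?_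
      have := rows_card D Q
      omega
    set j := D.cr b with hj
    have hrel := hm.rel j (S ∪ D.rows Q) hcard
    have h0 : (0 : ℝ) < θ j - cnj D Q j := by
      have h1 := hθ j
      have h2 : (cnj D Q j : ℝ) ≤ m := by exact_mod_cast (cnj_le D Q j).trans hc
      linarith
    have key : ∀ a ∈ D.Ls.filter (fun a => D.cl a = j), G D θ ℓ S (insert (a, b) Q) =
        (ℓ (S ∪ D.rows Q ∪ D.lits a) - if a ∈ Q.image Prod.fst then ℓ (S ∪ D.rows Q) else 0) *
          (D.wt θ Q * (θ j - cnj D Q j)⁻¹) := by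
      intro a ha
      have ha' := mem_filter.1 ha
      by_cases haq : a ∈ Q.image Prod.fst
      · rw [if_pos haq]
        obtain ⟨q, hq, rfl⟩ := mem_image.1 haq
        have h1 : S ∪ D.rows Q ∪ D.lits q.1 = S ∪ D.rows Q :=
          union_eq_left.2 ((lits_subset_rows D hq).trans subset_union_right)
        rw [h1, sub_self, zero_mul]
        unfold G
        rw [wt_of_not, mul_zero]
        intro h
        have := h.2 (q.1, b) (mem_insert_self _ _) q (mem_insert_of_mem hq)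
        exact hbq q hq (this.1 rfl).symm
      · rw [if_neg haq, sub_zero]
        unfold G
        rw [wt_insert hM ha'.2 (fun q hq e => haq (mem_image.2 ⟨q, hq, e⟩)) hbq, ha'.2, rows_insert]
        have h1 : S ∪ (D.lits a ∪ D.rows Q) = S ∪ D.rows Q ∪ D.lits a := by
          rw [union_comm (D.lits a), union_assoc]
        rw [h1]
    rw [sum_congr rfl key, ← sum_mul, sum_sub_distrib, hrel, ← sum_filter, sum_const,
      nsmul_eq_mul]
    have h2 : (((D.Ls.filter fun a => D.cl a = j).filter fun a => a ∈ Q.image Prod.fst).card : ℝ) =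
        cnj D Q j := by
      have h3 : ((D.Ls.filter fun a => D.cl a = j).filter fun a => a ∈ Q.image Prod.fst) =
          (Q.filter fun p => D.cl p.1 = j).image Prod.fst := by
        ext a
        simp only [mem_filter, mem_image]
        constructor
        · rintro ⟨⟨h4, h5⟩, p, hp, rfl⟩
          exact ⟨p, ⟨hp, h5⟩, rfl⟩
        · rintro ⟨p, ⟨hp, h5⟩, rfl⟩
          exact ⟨⟨(hQ p hp).1, h5⟩, p, hp, rfl⟩
      rw [h3, card_image_of_injOn ((Mat.injOn_fst hM).mono (by
        intro p hp; exact (mem_filter.1 hp).1))]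
      rfl
    rw [h2]
    unfold G
    field_simp

end Pool.Agent.T9h46.MB
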