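import Pool.Agent.T9h46.MB.A

/-!
# Sums over the matchings of a given set of left tokens
-/

set_option autoImplicit false
set_option linter.unusedSectionVars false

namespace Pool.Agent.T9h46.MB

open Pool.Agent.T9h19.MB Finset

variable {U L R J : Type} [Fintype U] [DecidableEq U] [Fintype L] [DecidableEq L]
  [Fintype R] [DecidableEq R] [Fintype J] [DecidableEq J]

/-- The relation of the left tokens. -/
theorem left_rel {D : Dat U L R J} {θ : J → ℝ} {m : ℕ} {δ : ℝ}
    (hθ : ∀ j, (m : ℝ) + 1 ≤ θ j) (hδ : 0 ≤ δ) (hT : ∀ j, |(D.cnt j : ℝ) - θ j| ≤ δ)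
    (Q : Finset (L × R)) (hQ : ∀ q ∈ Q, D.ok q.1 q.2) (hc : Q.card ≤ m) (a : L) :
    |∑ b ∈ D.Rs.filter (fun b => D.cr b = D.cl a), D.wt θ (insert (a, b) Q) - D.wt θ Q| ≤
      δ * D.wt θ Q := by
  by_cases hM : D.Mat Q
  swap
  · rw [wt_of_not hM, mul_zero, sub_zero, sum_eq_zero, abs_zero]
    intro b _
    exact wt_of_not (fun h => hM (Mat.mono (subset_insert _ _) h))
  have hw := wt_nonneg (D := D) hθ hc
  by_cases haq : ∃ q ∈ Q, q.1 = a
  · obtain ⟨q, hq, rfl⟩ := haq
    rw [sum_eq_single q.2]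
    · rw [insert_eq_of_mem (show (q.1, q.2) ∈ Q from hq), sub_self, abs_zero]
      positivity
    · intro b hb hne
      apply wt_of_not
      intro h
      have := h.2 (q.1, b) (mem_insert_self _ _) q (mem_insert_of_mem hq)
      exact hne (this.1 rfl)
    · intro h
      exact absurd (mem_filter.2 ⟨(hQ q hq).2.1, (hQ q hq).2.2.symm⟩) h
  · push Not at haq
    set j := D.cl a with hj
    have h0 : (1 : ℝ) ≤ θ j - cnj D Q j := by
      have h1 := hθ j
      have h2 : (cnj D Q j : ℝ) ≤ m := by exact_mod_cast (cnj_le D Q j).trans hc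
      linarith
    have key : ∀ b ∈ D.Rs.filter (fun b => D.cr b = j), D.wt θ (insert (a, b) Q) =
        (1 - if b ∈ Q.image Prod.snd then 1 else 0) *
          (D.wt θ Q * (θ j - cnj D Q j)⁻¹) := by
      intro b hb
      have hb' := mem_filter.1 hb
      by_cases hbq : b ∈ Q.image Prod.snd
      · rw [if_pos hbq, sub_self, zero_mul]
        obtain ⟨q, hq, rfl⟩ := mem_image.1 hbq
        apply wt_of_not
        intro h
        have := h.2 (a, q.2) (mem_insert_self _ _) q (mem_insert_of_mem hq)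
        exact haq q hq (this.2 rfl).symm
      · rw [if_neg hbq, sub_zero, one_mul]
        rw [wt_insert hM hb'.2.symm haq (fun q hq e => hbq (mem_image.2 ⟨q, hq, e⟩))]
    rw [sum_congr rfl key, ← sum_mul, sum_sub_distrib, sum_const, nsmul_eq_mul, mul_one,
      ← sum_filter, sum_const, nsmul_eq_mul, mul_one]
    have h2 : (((D.Rs.filter fun b => D.cr b = j).filter fun b => b ∈ Q.image Prod.snd).card : ℝ) =
        cnj D Q j := by
      have h3 : ((D.Rs.filter fun b => D.cr b = j).filter fun b => b ∈ Q.image Prod.snd) =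
          (Q.filter fun p => D.cl p.1 = j).image Prod.snd := by
        ext b
        simp only [mem_filter, mem_image]
        constructor
        · rintro ⟨⟨h4, h5⟩, p, hp, rfl⟩
          exact ⟨p, ⟨hp, (hQ p hp).2.2.trans h5⟩, rfl⟩
        · rintro ⟨p, ⟨hp, h5⟩, rfl⟩
          exact ⟨⟨(hQ p hp).2.1, (hQ p hp).2.2.symm.trans h5⟩, p, hp, rfl⟩
      rw [h3, card_image_of_injOn ((Mat.injOn_snd hM).mono (by
        intro p hp; exact (mem_filter.1 hp).1))]
      rfl
    rw [h2]
    have h4 : ((D.Rs.filter fun b => D.cr b = j).card : ℝ) = (D.cnt j : ℝ) := rfl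
    rw [h4]
    have h5 : ((D.cnt j : ℝ) - cnj D Q j) * (D.wt θ Q * (θ j - cnj D Q j)⁻¹) - D.wt θ Q =
        ((D.cnt j : ℝ) - θ j) * (θ j - cnj D Q j)⁻¹ * D.wt θ Q := by
      have h6 : θ j - cnj D Q j ≠ 0 := by linarith
      field_simp
      ring
    rw [h5, abs_mul, abs_of_nonneg hw, abs_mul]
    refine mul_le_mul_of_nonneg_right ?_ hw
    have h7 : |(θ j - (cnj D Q j : ℝ))⁻¹| ≤ 1 := by
      rw [abs_of_nonneg (inv_nonneg.2 (by linarith))]
      exact inv_le_one_of_one_le₀ h0
    calc |(D.cnt j : ℝ) - θ j| * |(θ j - (cnj D Q j : ℝ))⁻¹| ≤ δ * 1 :=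
          mul_le_mul (hT j) h7 (abs_nonneg _) hδ
      _ = δ := mul_one δ

/-- The partial matchings with the set `A` of left tokens (graphs of functions). -/
noncomputable def grs (D : Dat U L R J) (A : Finset L) : Finset (Finset (L × R)) :=
  univ.filter fun P => P.image Prod.fst = A ∧ P.card = A.card ∧ ∀ p ∈ P, D.ok p.1 p.2

theorem mem_grs {D : Dat U L R J} {A : Finset L} {P : Finset (L × R)} :
    P ∈ grs D A ↔ P.image Prod.fst = A ∧ P.card = A.card ∧ ∀ p ∈ P, D.ok p.1 p.2 := by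
  unfold grs
  rw [mem_filter, and_iff_right (mem_univ _)]

theorem grs_empty (D : Dat U L R J) : grs D ∅ = {∅} := by
  ext P
  rw [mem_grs, mem_singleton]
  constructor
  · rintro ⟨h, -, -⟩
    exact image_eq_empty.1 h
  · rintro rfl
    simp

theorem sum_grs_insert (D : Dat U L R J) (A : Finset L) (a : L) (ha : a ∉ A) (hL : a ∈ D.Ls)
    (X : Finset (L × R) → ℝ) : ∑ P ∈ grs D (insert a A), X P =
      ∑ b ∈ D.Rs.filter (fun b => D.cr b = D.cl a), ∑ P ∈ grs D A, X (insert (a, b) P) := by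
  rw [← sum_product']
  symm
  have hnot : ∀ P ∈ grs D A, ∀ b, (a, b) ∉ P := by
    intro P hP b hb
    apply ha
    rw [← (mem_grs.1 hP).1]
    exact mem_image.2 ⟨(a, b), hb, rfl⟩
  refine sum_bij (fun x _ => insert (a, x.1) x.2) ?_ ?_ ?_ (fun _ _ => rfl)
  · intro x hx
    obtain ⟨h1, h2⟩ := mem_product.1 hx
    have h1' := mem_filter.1 h1
    have h2' := mem_grs.1 h2
    rw [mem_grs]
    refine ⟨?_, ?_, ?_⟩
    · rw [image_insert, h2'.1]
    · rw [card_insert_of_notMem (hnot _ h2 _), card_insert_of_notMem ha, h2'.2.1]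
    · intro p hp
      rcases mem_insert.1 hp with rfl | hp
      · exact ⟨hL, h1'.1, h1'.2.symm⟩
      · exact h2'.2.2 p hp
  · intro x hx y hy h
    obtain ⟨h1, h2⟩ := mem_product.1 hx
    obtain ⟨h1', h2'⟩ := mem_product.1 hy
    have hb : x.1 = y.1 := by
      have h3 : (a, x.1) ∈ insert (a, y.1) y.2 := by
        have : insert (a, x.1) x.2 = insert (a, y.1) y.2 := h
        rw [← this]; exact mem_insert_self _ _
      rcases mem_insert.1 h3 with h4 | h4
      · exact (Prod.ext_iff.1 h4).2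
      · exact absurd h4 (hnot _ h2' _)
    have h3 : x.2 = y.2 := by
      have h4 : (insert (a, x.1) x.2).erase (a, x.1) = (insert (a, y.1) y.2).erase (a, x.1) :=
        congrArg (fun s => Finset.erase s (a, x.1)) h
      rw [erase_insert (hnot _ h2 _), hb, erase_insert (hnot _ h2' _)] at h4
      exact h4
    exact Prod.ext hb h3
  · intro P hP
    have hP' := mem_grs.1 hP
    have h1 : a ∈ P.image Prod.fst := by rw [hP'.1]; exact mem_insert_self _ _
    obtain ⟨p, hp, hpa⟩ := mem_image.1 h1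
    have hinj : Set.InjOn Prod.fst (P : Set (L × R)) := by
      rw [← card_image_iff, hP'.1, hP'.2.1]
    have hpe : p = (a, p.2) := Prod.ext hpa rfl
    have hok := hP'.2.2 p hp
    refine ⟨(p.2, P.erase p), mem_product.2 ⟨mem_filter.2 ⟨hok.2.1, ?_⟩, mem_grs.2 ⟨?_, ?_, ?_⟩⟩, ?_⟩
    · show D.cr p.2 = D.cl a
      rw [← hpa]; exact hok.2.2.symm
    · show (P.erase p).image Prod.fst = A
      ext a'
      rw [mem_image]
      constructor
      · rintro ⟨q, hq, rfl⟩
        have hq' := mem_erase.1 hq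
        have h5 : q.1 ∈ P.image Prod.fst := mem_image.2 ⟨q, hq'.2, rfl⟩
        rw [hP'.1] at h5
        rcases mem_insert.1 h5 with h6 | h6
        · exact absurd (hinj hq'.2 hp (h6.trans hpa.symm)) hq'.1
        · exact h6
      · intro h5
        have h6 : a' ∈ P.image Prod.fst := by rw [hP'.1]; exact mem_insert_of_mem h5
        obtain ⟨q, hq, rfl⟩ := mem_image.1 h6
        refine ⟨q, mem_erase.2 ⟨?_, hq⟩, rfl⟩
        rintro rfl
        exact ha (hpa ▸ h5)
    · show (P.erase p).card = A.card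
      rw [card_erase_of_mem hp, hP'.2.1, card_insert_of_notMem ha, Nat.add_sub_cancel]
    · intro q hq
      exact hP'.2.2 q (mem_erase.1 hq).2
    · show insert (a, p.2) (P.erase p) = P
      rw [← hpe, insert_erase hp]

/-- The sum over all matchings of the left tokens in `A`. -/
theorem sum_grs {D : Dat U L R J} {θ : J → ℝ} {m : ℕ} {δ : ℝ}
    (hθ : ∀ j, (m : ℝ) + 1 ≤ θ j) (hδ : 0 ≤ δ) (hδ1 : δ ≤ 1)
    (hT : ∀ j, |(D.cnt j : ℝ) - θ j| ≤ δ) (A : Finset L) (hA : A ⊆ D.Ls) :
    ∀ Q : Finset (L × R), (∀ q ∈ Q, D.ok q.1 q.2) → Q.card + A.card ≤ m →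
    |∑ P ∈ grs D A, D.wt θ (P ∪ Q) - D.wt θ Q| ≤ δ * (2 ^ A.card - 1) * D.wt θ Q := by
  induction A using Finset.induction_on with
  | empty =>
    intro Q _ _
    rw [grs_empty, sum_singleton, empty_union, sub_self, abs_zero, card_empty, pow_zero, sub_self,
      mul_zero, zero_mul]
  | insert a A ha ih =>
    intro Q hQ hc
    rw [card_insert_of_notMem ha] at hc ⊢
    have hL : a ∈ D.Ls := hA (mem_insert_self _ _)
    have ih' := ih ((subset_insert _ _).trans hA)
    rw [sum_grs_insert D A a ha hL]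
    have e1 : ∀ b, ∑ P ∈ grs D A, D.wt θ (insert (a, b) P ∪ Q) =
        ∑ P ∈ grs D A, D.wt θ (P ∪ insert (a, b) Q) := by
      intro b
      refine sum_congr rfl fun P _ => ?_
      rw [insert_union, union_insert]
    simp only [e1]
    set E : ℝ := 2 ^ A.card - 1 with hE
    have hE0 : 0 ≤ E := by
      rw [hE]
      have : (1 : ℝ) ≤ 2 ^ A.card := one_le_pow₀ (by norm_num)
      linarith
    have h1 : ∀ b ∈ D.Rs.filter (fun b => D.cr b = D.cl a),
        |∑ P ∈ grs D A, D.wt θ (P ∪ insert (a, b) Q) - D.wt θ (insert (a, b) Q)| ≤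
          δ * E * D.wt θ (insert (a, b) Q) := by
      intro b hb
      have hb' := mem_filter.1 hb
      refine ih' _ ?_ ?_
      · intro q hq
        rcases mem_insert.1 hq with rfl | hq
        · exact ⟨hL, hb'.1, hb'.2.symm⟩
        · exact hQ q hq
      · have := card_insert_le (a, b) Q
        omega
    have h2 := left_rel (θ := θ) hθ hδ hT Q hQ (by omega) a
    set w1 := ∑ b ∈ D.Rs.filter (fun b => D.cr b = D.cl a), D.wt θ (insert (a, b) Q) with hS1
    have hw := wt_nonneg (D := D) (θ := θ) hθ (Q := Q) (by omega)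
    have h3 : |∑ b ∈ D.Rs.filter (fun b => D.cr b = D.cl a),
        ∑ P ∈ grs D A, D.wt θ (P ∪ insert (a, b) Q) - w1| ≤ δ * E * w1 := by
      rw [hS1, ← sum_sub_distrib, mul_sum]
      exact (abs_sum_le_sum_abs _ _).trans (sum_le_sum h1)
    have h4 : w1 ≤ (1 + δ) * D.wt θ Q := by
      have := (abs_le.1 h2).2
      linarith
    have h5 : δ * E * w1 ≤ δ * E * (2 * D.wt θ Q) := by
      refine mul_le_mul_of_nonneg_left (h4.trans ?_) (mul_nonneg hδ hE0)
      exact mul_le_mul_of_nonneg_right (by linarith) hw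
    calc _ ≤ |∑ b ∈ D.Rs.filter (fun b => D.cr b = D.cl a),
        ∑ P ∈ grs D A, D.wt θ (P ∪ insert (a, b) Q) - w1| + |w1 - D.wt θ Q| :=
          abs_sub_le _ _ _
      _ ≤ δ * E * (2 * D.wt θ Q) + δ * D.wt θ Q := add_le_add (h3.trans h5) h2
      _ = δ * (2 ^ (A.card + 1) - 1) * D.wt θ Q := by
        rw [hE, pow_succ]; ring

end Pool.Agent.T9h46.MB
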