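import Pool.Agent.T9h46.MB.B

/-!
# The form, push forward, exchange of right tokens
-/

set_option autoImplicit false
set_option linter.unusedSectionVars false

namespace Pool.Agent.T9h46.MB

open Pool.Agent.T9h19.MB Finset

variable {U L R J : Type} [Fintype U] [DecidableEq U] [Fintype L] [DecidableEq L]
  [Fintype R] [DecidableEq R] [Fintype J] [DecidableEq J]

/-- The index type. -/
abbrev Ix (U L R : Type) := Finset (U × Bool) × Finset (L × R)

/-- The form with the context `Q0`. -/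
noncomputable def Fm (D : Dat U L R J) (θ : J → ℝ) (ℓ : Finset (U × Bool) → ℝ)
    (Q0 : Finset (L × R)) (c : Ix U L R → ℝ) : ℝ :=
  ∑ z, ∑ z', c z * c z' * G D θ ℓ (z.1 ∪ z'.1) (z.2 ∪ z'.2 ∪ Q0)

/-- push forward -/
theorem push {ι κ : Type} [Fintype ι] [Fintype κ] [DecidableEq κ] (π : ι → κ) (w : ι → ℝ)
    (X : κ → ℝ) : ∑ y, (∑ x, if π x = y then w x else 0) * X y = ∑ x, w x * X (π x) := by
  simp only [sum_mul]
  rw [sum_comm]
  refine sum_congr rfl fun x _ => ?_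
  simp only [ite_mul, zero_mul]
  rw [sum_ite_eq, if_pos (mem_univ _)]

theorem push2 {ι κ : Type} [Fintype ι] [Fintype κ] [DecidableEq κ] (π : ι → κ) (w : ι → ℝ)
    (H : κ → κ → ℝ) : ∑ y, ∑ y', (∑ x, if π x = y then w x else 0) *
      (∑ x, if π x = y' then w x else 0) * H y y' = ∑ x, ∑ x', w x * w x' * H (π x) (π x') := by
  have h1 : ∀ y, ∑ y', (∑ x, if π x = y then w x else 0) *
      (∑ x, if π x = y' then w x else 0) * H y y' =
      (∑ x, if π x = y then w x else 0) * ∑ x', w x' * H y (π x') := by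
    intro y
    rw [← push π w (H y), mul_sum]
    exact sum_congr rfl fun _ _ => by ring
  simp only [h1]
  rw [push π w (fun y => ∑ x', w x' * H y (π x'))]
  refine sum_congr rfl fun x _ => ?_
  rw [mul_sum]
  exact sum_congr rfl fun _ _ => by ring

theorem psd_push {D : Dat U L R J} {θ : J → ℝ} {ℓ : Finset (U × Bool) → ℝ} {N : ℕ}
    (hm : Mom D θ N ℓ) {ι : Type} [Fintype ι] (s : ι → Finset (U × Bool)) (w : ι → ℝ)
    (hs : ∀ i, w i ≠ 0 → (s i).card ≤ N) : 0 ≤ ∑ i, ∑ i', w i * w i' * ℓ (s i ∪ s i') := by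
  rw [← push2 s w (fun S S' => ℓ (S ∪ S'))]
  refine hm.psd _ fun S hS => ?_
  obtain ⟨i, -, hi⟩ := exists_ne_zero_of_sum_ne_zero hS
  by_cases h : s i = S
  · rw [if_pos h] at hi
    rw [← h]
    exact hs i hi
  · rw [if_neg h] at hi
    exact absurd rfl hi

/-- The indices of level `t` in the context `Q0`. -/
def Zt (D : Dat U L R J) (d t : ℕ) (Q0 : Finset (L × R)) (z : Ix U L R) : Prop :=
  z.1.card ≤ 2 * d ∧ z.2.card ≤ t ∧ ∀ p ∈ z.2, D.ok p.1 p.2 ∧ ∀ q ∈ Q0, p.1 ≠ q.1 ∧ p.2 ≠ q.2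

/-- Exchange of two right tokens. -/
def sw (b b' : R) : Finset (L × R) ≃ Finset (L × R) :=
  Equiv.finsetCongr (Equiv.prodCongr (Equiv.refl L) (Equiv.swap b b'))

theorem sw_eq (b b' : R) (P : Finset (L × R)) :
    sw b b' P = P.image fun p => (p.1, Equiv.swap b b' p.2) := by
  unfold sw
  rw [Equiv.finsetCongr_apply, map_eq_image]
  rfl

theorem mem_sw {b b' : R} {P : Finset (L × R)} {p : L × R} :
    p ∈ sw b b' P ↔ (p.1, Equiv.swap b b' p.2) ∈ P := by
  rw [sw_eq, mem_image]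
  constructor
  · rintro ⟨q, hq, rfl⟩
    show (q.1, Equiv.swap b b' (Equiv.swap b b' q.2)) ∈ P
    rw [Equiv.swap_apply_self]
    exact hq
  · intro h
    exact ⟨_, h, by rw [Equiv.swap_apply_self]⟩

theorem sw_sw (b b' : R) (P : Finset (L × R)) : sw b b' (sw b b' P) = P := by
  ext p
  rw [mem_sw, mem_sw, Equiv.swap_apply_self]

theorem sw_card (b b' : R) (P : Finset (L × R)) : (sw b b' P).card = P.card := by
  unfold sw
  rw [Equiv.finsetCongr_apply, card_map]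

theorem sw_union (b b' : R) (P Q : Finset (L × R)) :
    sw b b' (P ∪ Q) = sw b b' P ∪ sw b b' Q := by
  ext p
  rw [mem_union, mem_sw, mem_sw, mem_sw, mem_union]

theorem sw_fix {b b' : R} {P : Finset (L × R)} (hb : ∀ p ∈ P, p.2 ≠ b) (hb' : ∀ p ∈ P, p.2 ≠ b') :
    sw b b' P = P := by
  ext p
  rw [mem_sw]
  constructor
  · intro h
    have h1 := hb _ h
    have h2 := hb' _ h
    have h3 : Equiv.swap b b' p.2 ≠ b := h1
    have h4 : Equiv.swap b b' p.2 ≠ b' := h2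
    have h5 : Equiv.swap b b' (Equiv.swap b b' p.2) = Equiv.swap b b' p.2 :=
      Equiv.swap_apply_of_ne_of_ne h3 h4
    rw [Equiv.swap_apply_self] at h5
    rw [← h5] at h
    exact h
  · intro h
    rw [Equiv.swap_apply_of_ne_of_ne (hb p h) (hb' p h)]
    exact h

theorem sw_fst (b b' : R) (P : Finset (L × R)) :
    (sw b b' P).image Prod.fst = P.image Prod.fst := by
  rw [sw_eq, image_image]
  rfl

theorem sw_rows (D : Dat U L R J) (b b' : R) (P : Finset (L × R)) :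
    D.rows (sw b b' P) = D.rows P := by
  unfold Dat.rows
  rw [sw_eq, image_biUnion]

theorem cr_swap {D : Dat U L R J} {b b' : R} (h : D.cr b = D.cr b') (x : R) :
    D.cr (Equiv.swap b b' x) = D.cr x := by
  rcases eq_or_ne x b with rfl | h1
  · rw [Equiv.swap_apply_left, h]
  rcases eq_or_ne x b' with rfl | h2
  · rw [Equiv.swap_apply_right, h]
  rw [Equiv.swap_apply_of_ne_of_ne h1 h2]

theorem Rs_swap {D : Dat U L R J} {b b' : R} (hb : b ∈ D.Rs) (hb' : b' ∈ D.Rs) {x : R}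
    (hx : x ∈ D.Rs) : Equiv.swap b b' x ∈ D.Rs := by
  rcases eq_or_ne x b with rfl | h1
  · rwa [Equiv.swap_apply_left]
  rcases eq_or_ne x b' with rfl | h2
  · rwa [Equiv.swap_apply_right]
  rwa [Equiv.swap_apply_of_ne_of_ne h1 h2]

theorem sw_mat {D : Dat U L R J} {b b' : R} (h : D.cr b = D.cr b') {P : Finset (L × R)}
    (hP : D.Mat P) : D.Mat (sw b b' P) := by
  constructor
  · intro p hp
    have := hP.1 _ (mem_sw.1 hp)
    rw [cr_swap h] at this
    exact this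
  · intro p hp q hq
    have := hP.2 _ (mem_sw.1 hp) _ (mem_sw.1 hq)
    rw [show (p.1 = q.1 ↔ p.2 = q.2) ↔ ((p.1 = q.1) ↔ (Equiv.swap b b' p.2 = Equiv.swap b b' q.2))
      by rw [(Equiv.swap b b').injective.eq_iff]]
    exact this

theorem sw_mat_iff {D : Dat U L R J} {b b' : R} (h : D.cr b = D.cr b') {P : Finset (L × R)} :
    D.Mat (sw b b' P) ↔ D.Mat P :=
  ⟨fun hP => by have := sw_mat h hP; rwa [sw_sw] at this, sw_mat h⟩

theorem sw_wt {D : Dat U L R J} (θ : J → ℝ) {b b' : R} (h : D.cr b = D.cr b')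
    (P : Finset (L × R)) : D.wt θ (sw b b' P) = D.wt θ P := by
  by_cases hP : D.Mat P
  · rw [wt_of_mat hP, wt_of_mat (sw_mat h hP)]
    refine prod_congr rfl fun j _ => ?_
    congr 2
    unfold cnj
    rw [sw_eq, filter_image, card_image_of_injective]
    intro p q hpq
    have h1 := (Prod.ext_iff.1 hpq).1
    have h2 := (Prod.ext_iff.1 hpq).2
    exact Prod.ext h1 ((Equiv.swap b b').injective h2)
  · rw [wt_of_not hP, wt_of_not fun h' => hP ((sw_mat_iff h).1 h')]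

/-- Two free right tokens of the same colour. -/
def Gd (D : Dat U L R J) (Q0 : Finset (L × R)) (b b' : R) : Prop :=
  b ∈ D.Rs ∧ b' ∈ D.Rs ∧ D.cr b = D.cr b' ∧ (∀ q ∈ Q0, q.2 ≠ b) ∧ ∀ q ∈ Q0, q.2 ≠ b'

theorem sw_G {D : Dat U L R J} (θ : J → ℝ) (ℓ : Finset (U × Bool) → ℝ) {Q0 : Finset (L × R)}
    {b b' : R} (h : Gd D Q0 b b') (S : Finset (U × Bool)) (P P' : Finset (L × R)) :
    G D θ ℓ S (sw b b' P ∪ sw b b' P' ∪ Q0) = G D θ ℓ S (P ∪ P' ∪ Q0) := by
  have h1 : sw b b' P ∪ sw b b' P' ∪ Q0 = sw b b' (P ∪ P' ∪ Q0) := by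
    rw [sw_union, sw_union, sw_fix h.2.2.2.1 h.2.2.2.2]
  rw [h1]
  unfold G
  rw [sw_rows, sw_wt θ h.2.2.1]

theorem sw_Zt {D : Dat U L R J} {d t : ℕ} {Q0 : Finset (L × R)} {b b' : R} (h : Gd D Q0 b b')
    {z : Ix U L R} (hz : Zt D d t Q0 z) : Zt D d t Q0 (z.1, sw b b' z.2) := by
  refine ⟨hz.1, ?_, ?_⟩
  · show (sw b b' z.2).card ≤ t
    rw [sw_card]; exact hz.2.1
  · intro p hp
    have hp' : (p.1, Equiv.swap b b' p.2) ∈ z.2 := mem_sw.1 hp
    obtain ⟨⟨h1, h2, h3⟩, h4⟩ := hz.2.2 _ hp'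
    refine ⟨⟨h1, ?_, ?_⟩, fun q hq => ⟨(h4 q hq).1, ?_⟩⟩
    · have := Rs_swap h.1 h.2.1 h2
      rwa [Equiv.swap_apply_self] at this
    · rw [cr_swap h.2.2.1] at h3
      exact h3
    · intro e
      have h5 := (h4 q hq).2
      apply h5
      show Equiv.swap b b' p.2 = q.2
      rw [e]
      exact Equiv.swap_apply_of_ne_of_ne (h.2.2.2.1 q hq) (h.2.2.2.2 q hq)

theorem sw_Zt_iff {D : Dat U L R J} {d t : ℕ} {Q0 : Finset (L × R)} {b b' : R}
    (h : Gd D Q0 b b') {z : Ix U L R} : Zt D d t Q0 (z.1, sw b b' z.2) ↔ Zt D d t Q0 z := by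
  constructor
  · intro hz
    have := sw_Zt h hz
    rwa [sw_sw] at this
  · exact sw_Zt h

end Pool.Agent.T9h46.MB
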