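import Pool.Agent.T9h46.MB.C

/-!
# Antisymmetric vectors
-/

set_option autoImplicit false
set_option linter.unusedSectionVars false

namespace Pool.Agent.T9h46.MB

open Pool.Agent.T9h19.MB Finset

variable {U L R J : Type} [Fintype U] [DecidableEq U] [Fintype L] [DecidableEq L]
  [Fintype R] [DecidableEq R] [Fintype J] [DecidableEq J]

theorem comm4 {ι α : Type} [Fintype ι] (A : Finset α) (f : ι → ι → α → α → ℝ) :
    ∑ x, ∑ x', ∑ a ∈ A, ∑ a' ∈ A, f x x' a a' = ∑ a ∈ A, ∑ a' ∈ A, ∑ x, ∑ x', f x x' a a' := by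
  calc _ = ∑ x, ∑ a ∈ A, ∑ x', ∑ a' ∈ A, f x x' a a' := sum_congr rfl fun x _ => sum_comm
    _ = ∑ a ∈ A, ∑ x, ∑ x', ∑ a' ∈ A, f x x' a a' := sum_comm
    _ = ∑ a ∈ A, ∑ x, ∑ a' ∈ A, ∑ x', f x x' a a' :=
      sum_congr rfl fun a _ => sum_congr rfl fun x _ => sum_comm
    _ = ∑ a ∈ A, ∑ a' ∈ A, ∑ x, ∑ x', f x x' a a' := sum_congr rfl fun a _ => sum_comm

/-- Both right tokens `b`, `b'` are matched. -/
theorem Fm_expand {D : Dat U L R J} {θ : J → ℝ} {ℓ : Finset (U × Bool) → ℝ} {N d : ℕ}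
    (hm : Mom D θ N ℓ) (hN : 20 * (d + 1) ≤ N) (hθ : ∀ j, ((2 * d + 2 : ℕ) : ℝ) + 1 ≤ θ j)
    (t : ℕ) (Q0 : Finset (L × R)) (hQ0 : ∀ q ∈ Q0, D.ok q.1 q.2)
    (hcard : Q0.card + 2 * t ≤ 2 * d) (b b' : R) (hb : b ∈ D.Rs) (hb' : b' ∈ D.Rs)
    (hbb : D.cr b = D.cr b')
    (z : Ix U L R → ℝ) (hz : ∀ x, z x ≠ 0 → Zt D d t Q0 x) :
    Fm D θ ℓ Q0 z = ∑ a ∈ D.Ls.filter (fun a => D.cl a = D.cr b),
      ∑ a' ∈ D.Ls.filter (fun a => D.cl a = D.cr b),
        Fm D θ ℓ (insert (a', b') (insert (a, b) Q0)) z := by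
  unfold Fm
  rw [← comm4]
  refine sum_congr rfl fun x _ => sum_congr rfl fun x' _ => ?_
  by_cases h : z x = 0
  · simp [h]
  by_cases h' : z x' = 0
  · simp [h']
  have hx := hz x h
  have hx' := hz x' h'
  set Q := x.2 ∪ x'.2 ∪ Q0 with hQd
  have hQc : Q.card ≤ 2 * d := by
    have h1 := card_union_le (x.2 ∪ x'.2) Q0
    have h2 := card_union_le x.2 x'.2
    have h3 := hx.2.1
    have h4 := hx'.2.1
    rw [← hQd] at h1
    omega
  have hSc : (x.1 ∪ x'.1).card ≤ 4 * d := by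
    have h2 := card_union_le x.1 x'.1
    have h3 := hx.1
    have h4 := hx'.1
    omega
  have hQok : ∀ q ∈ Q, D.ok q.1 q.2 := by
    intro q hq
    rcases mem_union.1 hq with hq | hq
    · rcases mem_union.1 hq with hq | hq
      · exact (hx.2.2 q hq).1
      · exact (hx'.2.2 q hq).1
    · exact hQ0 q hq
  rw [← right_rel hm hθ (x.1 ∪ x'.1) Q hQok (by omega) (by omega) b hb, mul_sum]
  refine sum_congr rfl fun a ha => ?_
  have ha' := mem_filter.1 ha
  have hcI : (insert (a, b) Q).card ≤ 2 * d + 1 := (card_insert_le _ _).trans (by omega)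
  rw [← right_rel hm hθ (x.1 ∪ x'.1) (insert (a, b) Q) ?_ (by omega) (by omega) b' hb', mul_sum,
    hbb]
  · refine sum_congr rfl fun a' ha' => ?_
    rw [union_insert, union_insert]
  · intro q hq
    rcases mem_insert.1 hq with rfl | hq
    · exact ⟨ha'.1, hb, ha'.2⟩
    · exact hQok q hq

theorem Fm_of_not {D : Dat U L R J} {θ : J → ℝ} {ℓ : Finset (U × Bool) → ℝ}
    {Q : Finset (L × R)} (h : ¬ D.Mat Q) (z : Ix U L R → ℝ) : Fm D θ ℓ Q z = 0 := by
  unfold Fm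
  refine sum_eq_zero fun x _ => sum_eq_zero fun x' _ => ?_
  unfold G
  rw [wt_of_not fun h' => h (Mat.mono subset_union_right h'), mul_zero, mul_zero]

/-- The induction step for one pair of left tokens. -/
theorem anti_step {D : Dat U L R J} {θ : J → ℝ} {ℓ : Finset (U × Bool) → ℝ} {d : ℕ}
    (t : ℕ) (Q0 : Finset (L × R)) (hQ0 : ∀ q ∈ Q0, D.ok q.1 q.2)
    (hcard : Q0.card + 2 * (t + 1) ≤ 2 * d) (ε : ℝ) (hε : 0 ≤ ε)
    (ih : ∀ Q1 : Finset (L × R), (∀ q ∈ Q1, D.ok q.1 q.2) → Q1.card + 2 * t ≤ 2 * d →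
      ∀ c : Ix U L R → ℝ, (∀ z, c z ≠ 0 → Zt D d t Q1 z) →
        0 ≤ Fm D θ ℓ Q1 c + ε * ∑ z, c z ^ 2)
    (a a' : L) (b b' : R) (hab : D.ok a b) (hab' : D.ok a' b')
    (z : Ix U L R → ℝ) (hz : ∀ x, z x ≠ 0 → Zt D d (t + 1) Q0 x)
    (hanti : ∀ x, z (x.1, sw b b' x.2) = - z x) :
    0 ≤ Fm D θ ℓ (insert (a', b') (insert (a, b) Q0)) z +
      ε * (Fintype.card (Ix U L R) * ∑ x, z x ^ 2) := by
  classical
  set Q1 := insert (a', b') (insert (a, b) Q0) with hQ1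
  by_cases hM : D.Mat Q1
  swap
  · rw [Fm_of_not hM, zero_add]
    exact mul_nonneg hε (mul_nonneg (Nat.cast_nonneg _) (sum_nonneg fun _ _ => sq_nonneg _))
  let J0 : Finset (L × R) := {(a, b), (a', b')}
  have hJQ : J0 ⊆ Q1 := by
    intro p hp
    rcases mem_insert.1 hp with rfl | hp
    · exact mem_insert_of_mem (mem_insert_self _ _)
    · rw [mem_singleton.1 hp]; exact mem_insert_self _ _
  let π : Ix U L R → Ix U L R := fun x => (x.1, x.2 \ J0)
  let g0 : Ix U L R → ℝ := fun y => ∑ x, if π x = y then z x else 0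
  let H : Ix U L R → Ix U L R → ℝ := fun y y' => G D θ ℓ (y.1 ∪ y'.1) (y.2 ∪ y'.2 ∪ Q1)
  let av : Ix U L R → Prop := fun y => ∀ p ∈ y.2, ∀ q ∈ Q1, p.1 ≠ q.1 ∧ p.2 ≠ q.2
  let g : Ix U L R → ℝ := fun y => if av y then g0 y else 0
  have hg0 : ∀ y, g0 y ≠ 0 → ∃ x, π x = y ∧ z x ≠ 0 := by
    intro y hy
    obtain ⟨x, -, hx⟩ := exists_ne_zero_of_sum_ne_zero hy
    by_cases h : π x = y
    · rw [if_pos h] at hx
      exact ⟨x, h, hx⟩
    · rw [if_neg h] at hx
      exact absurd rfl hx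
  have e1 : Fm D θ ℓ Q1 z = ∑ y, ∑ y', g0 y * g0 y' * H y y' := by
    rw [push2 π z H]
    unfold Fm
    refine sum_congr rfl fun x _ => sum_congr rfl fun x' _ => ?_
    congr 2
    show x.2 ∪ x'.2 ∪ Q1 = (x.2 \ J0) ∪ (x'.2 \ J0) ∪ Q1
    ext p
    simp only [mem_union, mem_sdiff]
    constructor
    · rintro ((h | h) | h)
      · by_cases hp : p ∈ J0
        · right; exact hJQ hp
        · left; left; exact ⟨h, hp⟩
      · by_cases hp : p ∈ J0
        · right; exact hJQ hp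
        · left; right; exact ⟨h, hp⟩
      · right; exact h
    · rintro ((h | h) | h)
      · left; left; exact h.1
      · left; right; exact h.1
      · right; exact h
  have hav : ∀ y, g0 y ≠ 0 → ¬ av y → ∀ P : Finset (L × R), ¬ D.Mat (y.2 ∪ P ∪ Q1) := by
    intro y hy hny P hMat
    obtain ⟨x, hx, hzx⟩ := hg0 y hy
    have hZ := hz x hzx
    apply hny
    intro p hp q hq
    have hpx : p ∈ x.2 \ J0 := by
      have : y.2 = x.2 \ J0 := by rw [← hx]
      rwa [this] at hp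
    have hpx' := mem_sdiff.1 hpx
    have hpm : p ∈ y.2 ∪ P ∪ Q1 := mem_union_left _ (mem_union_left _ hp)
    have hqm : q ∈ y.2 ∪ P ∪ Q1 := mem_union_right _ hq
    have hiff := hMat.2 p hpm q hqm
    have hpq : p ≠ q := by
      rintro rfl
      rcases mem_insert.1 hq with h | h
      · exact hpx'.2 (by rw [h]; exact mem_insert_of_mem (mem_singleton_self _))
      · rcases mem_insert.1 h with h | h
        · exact hpx'.2 (by rw [h]; exact mem_insert_self _ _)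
        · exact ((hZ.2.2 p hpx'.1).2 p h).1 rfl
    constructor
    · intro e
      exact hpq (Prod.ext e (hiff.1 e))
    · intro e
      exact hpq (Prod.ext (hiff.2 e) e)
  have e2 : Fm D θ ℓ Q1 z = Fm D θ ℓ Q1 g := by
    rw [e1]
    unfold Fm
    refine sum_congr rfl fun y _ => sum_congr rfl fun y' _ => ?_
    show g0 y * g0 y' * G D θ ℓ (y.1 ∪ y'.1) (y.2 ∪ y'.2 ∪ Q1) =
      g y * g y' * G D θ ℓ (y.1 ∪ y'.1) (y.2 ∪ y'.2 ∪ Q1)
    have hgy : ∀ y, g y = if av y then g0 y else 0 := fun _ => rfl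
    by_cases h : g0 y = 0
    · rw [hgy y, h]; simp
    by_cases h' : g0 y' = 0
    · rw [hgy y', h']; simp
    by_cases hy : av y
    · by_cases hy' : av y'
      · rw [hgy y, hgy y', if_pos hy, if_pos hy']
      · have : G D θ ℓ (y.1 ∪ y'.1) (y.2 ∪ y'.2 ∪ Q1) = 0 := by
          unfold G
          rw [union_comm y.2 y'.2, wt_of_not (hav y' h' hy' y.2), mul_zero]
        rw [this, mul_zero, mul_zero]
    · have : G D θ ℓ (y.1 ∪ y'.1) (y.2 ∪ y'.2 ∪ Q1) = 0 := by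
        unfold G
        rw [wt_of_not (hav y h hy y'.2), mul_zero]
      rw [this, mul_zero, mul_zero]
  have hsupp : ∀ y, g y ≠ 0 → Zt D d t Q1 y := by
    intro y hy
    have hgy : g y = if av y then g0 y else 0 := rfl
    have hay : av y := by
      by_contra h
      rw [hgy, if_neg h] at hy
      exact hy rfl
    rw [hgy, if_pos hay] at hy
    obtain ⟨x, hx, hzx⟩ := hg0 y hy
    have hZ := hz x hzx
    have hy1 : y.1 = x.1 := by rw [← hx]
    have hy2 : y.2 = x.2 \ J0 := by rw [← hx]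
    refine ⟨by rw [hy1]; exact hZ.1, ?_, ?_⟩
    · by_contra hlt
      push Not at hlt
      -- every preimage of `y` is `y` itself
      apply hy
      show ∑ x, (if π x = y then z x else 0) = 0
      refine sum_eq_zero fun x' _ => ?_
      split_ifs with hx'
      · by_contra hne
        have hZ' := hz x' hne
        have hy2' : y.2 = x'.2 \ J0 := by rw [← hx']
        have hy1' : y.1 = x'.1 := by rw [← hx']
        have h3 : y.2 = x'.2 := by
          refine eq_of_subset_of_card_le (by rw [hy2']; exact sdiff_subset) ?_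
          have := hZ'.2.1
          omega
        have h4 : x' = y := Prod.ext hy1'.symm h3.symm
        rw [h4] at hne
        have h5 := hanti y
        rw [sw_fix (fun p hp => (hay p hp (a, b) (mem_insert_of_mem (mem_insert_self _ _))).2)
          (fun p hp => (hay p hp (a', b') (mem_insert_self _ _)).2)] at h5
        have h6 : z y = - z y := h5
        exact hne (by linarith)
      · rfl
    · intro p hp
      have hpx : p ∈ x.2 \ J0 := by rwa [hy2] at hp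
      exact ⟨(hZ.2.2 p (mem_sdiff.1 hpx).1).1, hay p hp⟩
  have hnorm : ∑ y, g y ^ 2 ≤ Fintype.card (Ix U L R) * ∑ x, z x ^ 2 := by
    have h1 : ∀ y, g y ^ 2 ≤ Fintype.card (Ix U L R) * ∑ x, if π x = y then z x ^ 2 else 0 := by
      intro y
      have h2 : g y ^ 2 ≤ g0 y ^ 2 := by
        show (if av y then g0 y else 0) ^ 2 ≤ g0 y ^ 2
        split_ifs
        · exact le_rfl
        · rw [zero_pow (by norm_num)]; exact sq_nonneg _
      refine h2.trans ?_
      have h3 := sq_sum_le_card_mul_sum_sq (s := (univ : Finset (Ix U L R)))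
        (f := fun x => if π x = y then z x else 0)
      rw [card_univ] at h3
      refine h3.trans (le_of_eq ?_)
      congr 1
      refine sum_congr rfl fun x _ => ?_
      split_ifs
      · rfl
      · rw [zero_pow (by norm_num)]
    refine (sum_le_sum fun y _ => h1 y).trans (le_of_eq ?_)
    rw [← mul_sum]
    congr 1
    rw [sum_comm]
    refine sum_congr rfl fun x _ => ?_
    rw [sum_ite_eq, if_pos (mem_univ _)]
  have h7 := ih Q1 ?_ ?_ g hsupp
  · rw [e2]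
    have h8 := mul_le_mul_of_nonneg_left hnorm hε
    linarith
  · intro q hq
    rcases mem_insert.1 hq with rfl | hq
    · exact hab'
    rcases mem_insert.1 hq with rfl | hq
    · exact hab
    · exact hQ0 q hq
  · have h8 := card_insert_le (a', b') (insert (a, b) Q0)
    have h9 := card_insert_le (a, b) Q0
    rw [← hQ1] at h8
    omega

/-- Antisymmetric vectors. -/
theorem anti_ge {D : Dat U L R J} {θ : J → ℝ} {ℓ : Finset (U × Bool) → ℝ} {N d : ℕ}
    (hm : Mom D θ N ℓ) (hN : 20 * (d + 1) ≤ N) (hθ : ∀ j, ((2 * d + 2 : ℕ) : ℝ) + 1 ≤ θ j)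
    (t : ℕ) (Q0 : Finset (L × R)) (hQ0 : ∀ q ∈ Q0, D.ok q.1 q.2)
    (hcard : Q0.card + 2 * (t + 1) ≤ 2 * d) (ε : ℝ) (hε : 0 ≤ ε)
    (ih : ∀ Q1 : Finset (L × R), (∀ q ∈ Q1, D.ok q.1 q.2) → Q1.card + 2 * t ≤ 2 * d →
      ∀ c : Ix U L R → ℝ, (∀ z, c z ≠ 0 → Zt D d t Q1 z) →
        0 ≤ Fm D θ ℓ Q1 c + ε * ∑ z, c z ^ 2)
    (b b' : R) (hg : Gd D Q0 b b')
    (z : Ix U L R → ℝ) (hz : ∀ x, z x ≠ 0 → Zt D d (t + 1) Q0 x)
    (hanti : ∀ x, z (x.1, sw b b' x.2) = - z x) :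
    0 ≤ Fm D θ ℓ Q0 z +
      ε * (Fintype.card L ^ 2 * Fintype.card (Ix U L R) * ∑ x, z x ^ 2) := by
  rw [Fm_expand hm hN hθ (t + 1) Q0 hQ0 hcard b b' hg.1 hg.2.1 hg.2.2.1 z hz]
  set A := D.Ls.filter (fun a => D.cl a = D.cr b) with hA
  set V := (Fintype.card (Ix U L R) : ℝ) * ∑ x, z x ^ 2 with hV
  have hV0 : 0 ≤ V := mul_nonneg (Nat.cast_nonneg _) (sum_nonneg fun _ _ => sq_nonneg _)
  have h1 : ∀ a ∈ A, ∀ a' ∈ A,
      -(ε * V) ≤ Fm D θ ℓ (insert (a', b') (insert (a, b) Q0)) z := by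
    intro a ha a' ha'
    have h2 := mem_filter.1 ha
    have h3 := mem_filter.1 ha'
    have h4 := anti_step t Q0 hQ0 hcard ε hε ih a a' b b' ⟨h2.1, hg.1, h2.2⟩
      ⟨h3.1, hg.2.1, h3.2.trans hg.2.2.1⟩ z hz hanti
    linarith
  have h2 : ∑ a ∈ A, ∑ a' ∈ A, -(ε * V) ≤
      ∑ a ∈ A, ∑ a' ∈ A, Fm D θ ℓ (insert (a', b') (insert (a, b) Q0)) z :=
    sum_le_sum fun a ha => sum_le_sum fun a' ha' => h1 a ha a' ha'
  rw [sum_const, sum_const, nsmul_eq_mul, nsmul_eq_mul] at h2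
  have h3 : (A.card : ℝ) ≤ Fintype.card L := by exact_mod_cast card_le_univ A
  have h4 : (A.card : ℝ) * (A.card * (ε * V)) ≤ Fintype.card L * (Fintype.card L * (ε * V)) := by
    have h5 : 0 ≤ ε * V := mul_nonneg hε hV0
    gcongr
  have h5 : ε * (Fintype.card L ^ 2 * Fintype.card (Ix U L R) * ∑ x, z x ^ 2) =
      Fintype.card L * (Fintype.card L * (ε * V)) := by rw [hV]; ring
  rw [h5]
  linarith

end Pool.Agent.T9h46.MB
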