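import Pool.Agent.T9h46.MB.D

/-!
# Invariant vectors
-/

set_option autoImplicit false
set_option linter.unusedSectionVars false

namespace Pool.Agent.T9h46.MB

open Pool.Agent.T9h19.MB Finset

variable {U L R J : Type} [Fintype U] [DecidableEq U] [Fintype L] [DecidableEq L]
  [Fintype R] [DecidableEq R] [Fintype J] [DecidableEq J]

/-- An invariant vector depends on the left tokens only. -/
theorem same_val {D : Dat U L R J} {d t : ℕ} {Q0 : Finset (L × R)} (v : Ix U L R → ℝ)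
    (hinv : ∀ b b', Gd D Q0 b b' → ∀ x : Ix U L R, v (x.1, sw b b' x.2) = v x)
    (S : Finset (U × Bool)) (P1 : Finset (L × R)) (h1 : Zt D d t Q0 (S, P1))
    (hM1 : D.Mat (P1 ∪ Q0)) :
    ∀ n : ℕ, ∀ P : Finset (L × R), (P \ P1).card ≤ n → Zt D d t Q0 (S, P) → D.Mat (P ∪ Q0) →
      P.image Prod.fst = P1.image Prod.fst → v (S, P) = v (S, P1) := by
  have base : ∀ P : Finset (L × R), P ⊆ P1 → D.Mat (P ∪ Q0) →
      P.image Prod.fst = P1.image Prod.fst → P = P1 := by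
    intro P hs hM himg
    apply eq_of_subset_of_card_le hs
    have e1 : (P.image Prod.fst).card = P.card :=
      card_image_of_injOn (Mat.injOn_fst (Mat.mono subset_union_left hM))
    have e2 : (P1.image Prod.fst).card = P1.card :=
      card_image_of_injOn (Mat.injOn_fst (Mat.mono subset_union_left hM1))
    rw [← e1, ← e2, himg]
  intro n
  induction n with
  | zero =>
    intro P hn _ hM himg
    have : P \ P1 = ∅ := card_eq_zero.1 (by omega)
    rw [base P (sdiff_eq_empty_iff_subset.1 this) hM himg]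
  | succ n ih =>
    intro P hn hZ hM himg
    by_cases hs : P ⊆ P1
    · rw [base P hs hM himg]
    · obtain ⟨p, hp, hp1⟩ := not_subset.1 hs
      have h3 : p.1 ∈ P1.image Prod.fst := by
        rw [← himg]; exact mem_image_of_mem _ hp
      obtain ⟨q, hq, hqp⟩ := mem_image.1 h3
      have hMP := Mat.mono (D := D) (subset_union_left (s₁ := P) (s₂ := Q0)) hM
      have hMP1 := Mat.mono (D := D) (subset_union_left (s₁ := P1) (s₂ := Q0)) hM1
      have hZp := hZ.2.2 p hp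
      have hZq := h1.2.2 q hq
      have hG : Gd D Q0 p.2 q.2 := by
        refine ⟨hZp.1.2.1, hZq.1.2.1, ?_, fun r hr => (hZp.2 r hr).2.symm,
          fun r hr => (hZq.2 r hr).2.symm⟩
        rw [← hZp.1.2.2, ← hZq.1.2.2, hqp]
      rw [← hinv p.2 q.2 hG (S, P)]
      show v (S, sw p.2 q.2 P) = v (S, P1)
      apply ih
      · have hsub : sw p.2 q.2 P \ P1 ⊆
            ((P \ P1).erase p).image fun r => (r.1, Equiv.swap p.2 q.2 r.2) := by
          intro r' hr'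
          obtain ⟨hr1, hr2⟩ := mem_sdiff.1 hr'
          have hr : (r'.1, Equiv.swap p.2 q.2 r'.2) ∈ P := mem_sw.1 hr1
          set r : L × R := (r'.1, Equiv.swap p.2 q.2 r'.2) with hrd
          have hback : (r.1, Equiv.swap p.2 q.2 r.2) = r' := by
            rw [hrd]
            show (r'.1, Equiv.swap p.2 q.2 (Equiv.swap p.2 q.2 r'.2)) = r'
            rw [Equiv.swap_apply_self]
          refine mem_image.2 ⟨r, mem_erase.2 ⟨?_, mem_sdiff.2 ⟨hr, ?_⟩⟩, hback⟩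
          · intro e
            apply hr2
            rw [← hback, e, Equiv.swap_apply_left]
            have : (p.1, q.2) = q := Prod.ext hqp.symm rfl
            rw [this]; exact hq
          · intro hrP1
            have n1 : r.2 ≠ p.2 := by
              intro e
              have e1 : r.1 = p.1 := (hMP.2 r hr p hp).2 e
              exact hp1 (by rw [← Prod.ext e1 e]; exact hrP1)
            have n2 : r.2 ≠ q.2 := by
              intro e
              have e1 : r.1 = q.1 := (hMP1.2 r hrP1 q hq).2 e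
              have e2 : r.2 = p.2 := (hMP.2 r hr p hp).1 (e1.trans hqp)
              exact n1 e2
            apply hr2
            rw [← hback, Equiv.swap_apply_of_ne_of_ne n1 n2]
            exact hrP1
        have hc1 := card_le_card hsub
        have hc2 := card_image_le (s := (P \ P1).erase p)
          (f := fun r : L × R => (r.1, Equiv.swap p.2 q.2 r.2))
        have hc3 : ((P \ P1).erase p).card = (P \ P1).card - 1 :=
          card_erase_of_mem (mem_sdiff.2 ⟨hp, hp1⟩)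
        omega
      · exact sw_Zt hG hZ
      · have e : sw p.2 q.2 P ∪ Q0 = sw p.2 q.2 (P ∪ Q0) := by
          rw [sw_union, sw_fix hG.2.2.2.1 hG.2.2.2.2]
        rw [e]
        exact sw_mat hG.2.2.1 hM
      · rw [sw_fst]; exact himg

/-- The literals of a set of left tokens. -/
def ra (D : Dat U L R J) (A : Finset L) : Finset (U × Bool) := A.biUnion fun a => D.lits a

theorem rows_eq (D : Dat U L R J) (P : Finset (L × R)) : D.rows P = ra D (P.image Prod.fst) := by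
  unfold ra Dat.rows
  rw [image_biUnion]

theorem ra_card (D : Dat U L R J) (A : Finset L) : (ra D A).card ≤ 2 * A.card := by
  unfold ra
  refine card_biUnion_le.trans ?_
  refine (sum_le_card_nsmul _ _ 2 fun p _ => lits_card D p).trans ?_
  rw [smul_eq_mul, mul_comm]

/-- The admissible indices. -/
def Vx (D : Dat U L R J) (d t : ℕ) (Q0 : Finset (L × R)) (x : Ix U L R) : Prop :=
  Zt D d t Q0 x ∧ D.Mat (x.2 ∪ Q0)

open scoped Classical in
/-- The value of an invariant vector on a set of left tokens. -/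
noncomputable def fv (D : Dat U L R J) (d t : ℕ) (Q0 : Finset (L × R)) (v : Ix U L R → ℝ)
    (y : Finset (U × Bool) × Finset L) : ℝ :=
  if h : ∃ P, Vx D d t Q0 (y.1, P) ∧ P.image Prod.fst = y.2 then v (y.1, h.choose) else 0

theorem fv_eq {D : Dat U L R J} {d t : ℕ} {Q0 : Finset (L × R)} (v : Ix U L R → ℝ)
    (hinv : ∀ b b', Gd D Q0 b b' → ∀ x : Ix U L R, v (x.1, sw b b' x.2) = v x)
    (x : Ix U L R) (hx : Vx D d t Q0 x) : v x = fv D d t Q0 v (x.1, x.2.image Prod.fst) := by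
  have h : ∃ P, Vx D d t Q0 (x.1, P) ∧ P.image Prod.fst = x.2.image Prod.fst := ⟨x.2, hx, rfl⟩
  have e : fv D d t Q0 v (x.1, x.2.image Prod.fst) = v (x.1, h.choose) := dif_pos h
  rw [e]
  have h2 := h.choose_spec
  exact same_val v hinv x.1 h.choose h2.1.1 h2.1.2 _ x.2 le_rfl hx.1 hx.2 h2.2.symm

theorem fv_ne {D : Dat U L R J} {d t : ℕ} {Q0 : Finset (L × R)} {v : Ix U L R → ℝ}
    {y : Finset (U × Bool) × Finset L} (h : fv D d t Q0 v y ≠ 0) :
    ∃ P, Vx D d t Q0 (y.1, P) ∧ P.image Prod.fst = y.2 := by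
  by_contra hc
  apply h
  exact dif_neg hc

theorem fv_abs {D : Dat U L R J} {d t : ℕ} {Q0 : Finset (L × R)} {v : Ix U L R → ℝ} {s : ℝ}
    (hs : ∀ x, |v x| ≤ s) (y : Finset (U × Bool) × Finset L) : |fv D d t Q0 v y| ≤ s := by
  unfold fv
  split_ifs
  · exact hs _
  · rw [abs_zero]; exact (abs_nonneg _).trans (hs (∅, ∅))

/-- The sum over the right tokens. -/
theorem one_side {D : Dat U L R J} {θ : J → ℝ} {ℓ : Finset (U × Bool) → ℝ} {d t : ℕ}
    {Q0 : Finset (L × R)} (v : Ix U L R → ℝ) (hv : ∀ x, v x ≠ 0 → Zt D d t Q0 x)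
    (hinv : ∀ b b', Gd D Q0 b b' → ∀ x : Ix U L R, v (x.1, sw b b' x.2) = v x)
    (T : Finset (U × Bool)) (Q1 : Finset (L × R)) (hQ : Q0 ⊆ Q1) :
    ∑ x, v x * (ℓ (x.1 ∪ T ∪ D.rows x.2) * D.wt θ (x.2 ∪ Q1)) =
      ∑ y, fv D d t Q0 v y * (ℓ (y.1 ∪ T ∪ ra D y.2) * ∑ P ∈ grs D y.2, D.wt θ (P ∪ Q1)) := by
  classical
  rw [Fintype.sum_prod_type, Fintype.sum_prod_type]
  refine sum_congr rfl fun S _ => ?_
  have e1 : ∀ A : Finset L, fv D d t Q0 v (S, A) * (ℓ (S ∪ T ∪ ra D A) *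
      ∑ P ∈ grs D A, D.wt θ (P ∪ Q1)) = ∑ P : Finset (L × R), if P ∈ grs D A then
        fv D d t Q0 v (S, A) * (ℓ (S ∪ T ∪ ra D A) * D.wt θ (P ∪ Q1)) else 0 := by
    intro A
    rw [mul_sum, mul_sum, ← sum_filter]
    refine sum_congr ?_ fun _ _ => rfl
    ext P
    simp
  show ∑ P : Finset (L × R), v (S, P) * (ℓ (S ∪ T ∪ D.rows P) * D.wt θ (P ∪ Q1)) =
    ∑ A : Finset L, fv D d t Q0 v (S, A) * (ℓ (S ∪ T ∪ ra D A) *
      ∑ P ∈ grs D A, D.wt θ (P ∪ Q1))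
  simp only [e1]
  rw [sum_comm]
  refine sum_congr rfl fun P _ => ?_
  rw [sum_eq_single (P.image Prod.fst)]
  rotate_left
  · intro A _ hne
    rw [if_neg]
    intro h
    exact hne (mem_grs.1 h).1.symm
  · intro h; exact absurd (mem_univ _) h
  by_cases hM : D.Mat (P ∪ Q1)
  swap
  · rw [wt_of_not hM]
    simp
  have hM0 : D.Mat (P ∪ Q0) := Mat.mono (union_subset_union_right hQ) hM
  have hcard : P.card = (P.image Prod.fst).card :=
    (card_image_of_injOn (Mat.injOn_fst (Mat.mono subset_union_left hM))).symm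
  by_cases hV : Vx D d t Q0 (S, P)
  · rw [if_pos (mem_grs.2 ⟨rfl, hcard, fun p hp => (hV.1.2.2 p hp).1⟩), ← rows_eq,
      ← fv_eq v hinv (S, P) hV]
  · have h0 : v (S, P) = 0 := by
      by_contra h
      exact hV ⟨hv _ h, hM0⟩
    rw [h0, zero_mul]
    split_ifs with hg
    · have hf : fv D d t Q0 v (S, P.image Prod.fst) = 0 := by
        by_contra hne
        obtain ⟨P1, hP1, himg⟩ := fv_ne hne
        have himg' : P1.image Prod.fst = P.image Prod.fst := himg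
        apply hV
        refine ⟨⟨hP1.1.1, ?_, ?_⟩, hM0⟩
        · show P.card ≤ t
          rw [hcard, ← himg']
          exact card_image_le.trans hP1.1.2.1
        · intro p hp
          refine ⟨(mem_grs.1 hg).2.2 p hp, fun q hq => ?_⟩
          have h5 : p.1 ∈ P1.image Prod.fst := by
            rw [himg']; exact mem_image_of_mem _ hp
          obtain ⟨p1, hp1, hpe⟩ := mem_image.1 h5
          have h6 : p.1 ≠ q.1 := by
            rw [← hpe]; exact ((hP1.1.2.2 p1 hp1).2 q hq).1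
          refine ⟨h6, fun e => h6 ?_⟩
          exact (hM0.2 p (mem_union_left _ hp) q (mem_union_right _ hq)).2 e
      rw [hf, zero_mul]
    · rfl

/-- The one-sided estimate. -/
theorem one_side_est {D : Dat U L R J} {θ : J → ℝ} {ℓ : Finset (U × Bool) → ℝ} {N d t : ℕ}
    {δ : ℝ} (hm : Mom D θ N ℓ) (hN : 20 * (d + 1) ≤ N)
    (hθ : ∀ j, ((2 * d + 2 : ℕ) : ℝ) + 1 ≤ θ j)
    (hδ : 0 ≤ δ) (hδ1 : δ ≤ 1) (hT : ∀ j, |(D.cnt j : ℝ) - θ j| ≤ δ) (htd : t ≤ d)
    {Q0 : Finset (L × R)} (v : Ix U L R → ℝ) (hv : ∀ x, v x ≠ 0 → Zt D d t Q0 x)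
    (hinv : ∀ b b', Gd D Q0 b b' → ∀ x : Ix U L R, v (x.1, sw b b' x.2) = v x)
    (T : Finset (U × Bool)) (hTc : T.card ≤ 6 * d) (Q1 : Finset (L × R)) (hQ : Q0 ⊆ Q1)
    (hQ1 : ∀ q ∈ Q1, D.ok q.1 q.2) (hQ1c : Q1.card + t ≤ 2 * d) :
    |∑ x, v x * (ℓ (x.1 ∪ T ∪ D.rows x.2) * D.wt θ (x.2 ∪ Q1)) -
      D.wt θ Q1 * ∑ y, fv D d t Q0 v y * ℓ (y.1 ∪ T ∪ ra D y.2)| ≤
      δ * 2 ^ d * ∑ y, |fv D d t Q0 v y| := by
  rw [one_side v hv hinv T Q1 hQ, mul_sum, ← sum_sub_distrib, mul_sum]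
  refine (abs_sum_le_sum_abs _ _).trans (sum_le_sum fun y _ => ?_)
  by_cases h0 : fv D d t Q0 v y = 0
  · rw [h0]; simp
  obtain ⟨P, hP, himg⟩ := fv_ne h0
  have hyc : y.2.card ≤ t := by
    rw [← himg]; exact card_image_le.trans hP.1.2.1
  have hyL : y.2 ⊆ D.Ls := by
    intro a ha
    rw [← himg] at ha
    obtain ⟨p, hp, rfl⟩ := mem_image.1 ha
    exact (hP.1.2.2 p hp).1.1
  have h1 := sum_grs (D := D) (θ := θ) hθ hδ hδ1 hT y.2 hyL Q1 hQ1 (by omega)
  have hw0 := wt_nonneg (D := D) (θ := θ) hθ (Q := Q1) (by omega)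
  have hw1 := wt_le_one (D := D) (θ := θ) hθ (Q := Q1) (by omega)
  have hl : |ℓ (y.1 ∪ T ∪ ra D y.2)| ≤ 1 := by
    apply hm.bdd
    have c1 := card_union_le (y.1 ∪ T) (ra D y.2)
    have c2 := card_union_le y.1 T
    have c3 := ra_card D y.2
    have c4 : y.1.card ≤ 2 * d := hP.1.1
    omega
  have h2 : fv D d t Q0 v y * (ℓ (y.1 ∪ T ∪ ra D y.2) * ∑ P ∈ grs D y.2, D.wt θ (P ∪ Q1)) -
      D.wt θ Q1 * (fv D d t Q0 v y * ℓ (y.1 ∪ T ∪ ra D y.2)) =
      (∑ P ∈ grs D y.2, D.wt θ (P ∪ Q1) - D.wt θ Q1) * ℓ (y.1 ∪ T ∪ ra D y.2) *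
        fv D d t Q0 v y := by ring
  rw [h2, abs_mul]
  refine mul_le_mul_of_nonneg_right ?_ (abs_nonneg _)
  rw [abs_mul]
  have h3 : (2 : ℝ) ^ y.2.card ≤ 2 ^ d := pow_le_pow_right₀ (by norm_num) (by omega)
  have h4 : (1 : ℝ) ≤ 2 ^ y.2.card := one_le_pow₀ (by norm_num)
  calc |∑ P ∈ grs D y.2, D.wt θ (P ∪ Q1) - D.wt θ Q1| * |ℓ (y.1 ∪ T ∪ ra D y.2)|
      ≤ δ * (2 ^ y.2.card - 1) * D.wt θ Q1 * 1 :=
        mul_le_mul h1 hl (abs_nonneg _) ((abs_nonneg _).trans h1)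
    _ ≤ δ * (2 ^ y.2.card - 1) * 1 * 1 := by
        refine mul_le_mul_of_nonneg_right ?_ zero_le_one
        exact mul_le_mul_of_nonneg_left hw1 (mul_nonneg hδ (by linarith))
    _ ≤ δ * 2 ^ d := by
        rw [mul_one, mul_one]
        exact mul_le_mul_of_nonneg_left (by linarith) hδ

/-- Invariant vectors. -/
theorem inv_ge {D : Dat U L R J} {θ : J → ℝ} {ℓ : Finset (U × Bool) → ℝ} {N d t : ℕ}
    {δ : ℝ} (hm : Mom D θ N ℓ) (hN : 20 * (d + 1) ≤ N)
    (hθ : ∀ j, ((2 * d + 2 : ℕ) : ℝ) + 1 ≤ θ j)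
    (hδ : 0 ≤ δ) (hδ1 : δ ≤ 1) (hT : ∀ j, |(D.cnt j : ℝ) - θ j| ≤ δ) (htd : t ≤ d)
    (Q0 : Finset (L × R)) (hQ0 : ∀ q ∈ Q0, D.ok q.1 q.2) (hcard : Q0.card + 2 * t ≤ 2 * d)
    (v : Ix U L R → ℝ) (hv : ∀ x, v x ≠ 0 → Zt D d t Q0 x)
    (hinv : ∀ b b', Gd D Q0 b b' → ∀ x : Ix U L R, v (x.1, sw b b' x.2) = v x) :
    0 ≤ Fm D θ ℓ Q0 v + δ * 2 ^ d *
      (Fintype.card (Finset (U × Bool) × Finset L) * Fintype.card (Ix U L R) +
        Fintype.card (Finset (U × Bool) × Finset L) ^ 2) * ∑ x, v x ^ 2 := by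
  set f := fv D d t Q0 v with hf
  set B := δ * 2 ^ d with hB
  have hB0 : 0 ≤ B := by positivity
  set F1 := ∑ y, |f y| with hF1
  have hF10 : 0 ≤ F1 := sum_nonneg fun _ _ => abs_nonneg _
  have hw0 := wt_nonneg (D := D) (θ := θ) hθ (Q := Q0) (by omega)
  have hw1 := wt_le_one (D := D) (θ := θ) hθ (Q := Q0) (by omega)
  -- first side
  have e1 : Fm D θ ℓ Q0 v = ∑ x', v x' * ∑ x, v x *
      (ℓ (x.1 ∪ (x'.1 ∪ D.rows (x'.2 ∪ Q0)) ∪ D.rows x.2) * D.wt θ (x.2 ∪ (x'.2 ∪ Q0))) := by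
    unfold Fm
    rw [sum_comm]
    refine sum_congr rfl fun x' _ => ?_
    rw [mul_sum]
    refine sum_congr rfl fun x _ => ?_
    unfold G
    have s1 : x.1 ∪ x'.1 ∪ D.rows (x.2 ∪ x'.2 ∪ Q0) =
        x.1 ∪ (x'.1 ∪ D.rows (x'.2 ∪ Q0)) ∪ D.rows x.2 := by
      rw [union_assoc x.2, rows_union D x.2]
      ext l
      simp only [mem_union]
      tauto
    rw [s1, union_assoc x.2]
    ring
  set M1 := ∑ x', v x' * (D.wt θ (x'.2 ∪ Q0) *
    ∑ y, f y * ℓ (y.1 ∪ (x'.1 ∪ D.rows (x'.2 ∪ Q0)) ∪ ra D y.2)) with hM1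
  have h1 : |Fm D θ ℓ Q0 v - M1| ≤ B * F1 * ∑ x', |v x'| := by
    rw [e1, hM1, ← sum_sub_distrib, mul_sum]
    refine (abs_sum_le_sum_abs _ _).trans (sum_le_sum fun x' _ => ?_)
    by_cases h0 : v x' = 0
    · rw [h0]; simp
    have hZ := hv x' h0
    have c1 := card_union_le x'.1 (D.rows (x'.2 ∪ Q0))
    have c2 := rows_card D (x'.2 ∪ Q0)
    have c3 := card_union_le x'.2 Q0
    have c4 := hZ.1
    have c5 := hZ.2.1
    have h2 := one_side_est hm hN hθ hδ hδ1 hT htd v hv hinv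
      (x'.1 ∪ D.rows (x'.2 ∪ Q0)) (by omega) (x'.2 ∪ Q0) subset_union_right
      (fun q hq => by
        rcases mem_union.1 hq with hq | hq
        · exact (hZ.2.2 q hq).1
        · exact hQ0 q hq) (by omega)
    rw [← mul_sub, abs_mul, mul_comm]
    exact mul_le_mul_of_nonneg_right h2 (abs_nonneg _)
  -- second side
  have e2 : M1 = ∑ y, f y * ∑ x', v x' *
      (ℓ (x'.1 ∪ (y.1 ∪ ra D y.2 ∪ D.rows Q0) ∪ D.rows x'.2) * D.wt θ (x'.2 ∪ Q0)) := by
    rw [hM1]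
    have e3 : ∀ x' : Ix U L R, v x' * (D.wt θ (x'.2 ∪ Q0) *
        ∑ y, f y * ℓ (y.1 ∪ (x'.1 ∪ D.rows (x'.2 ∪ Q0)) ∪ ra D y.2)) =
        ∑ y, f y * (v x' * (ℓ (x'.1 ∪ (y.1 ∪ ra D y.2 ∪ D.rows Q0) ∪ D.rows x'.2) *
          D.wt θ (x'.2 ∪ Q0))) := by
      intro x'
      rw [mul_sum, mul_sum]
      refine sum_congr rfl fun y _ => ?_
      have s1 : y.1 ∪ (x'.1 ∪ D.rows (x'.2 ∪ Q0)) ∪ ra D y.2 =
          x'.1 ∪ (y.1 ∪ ra D y.2 ∪ D.rows Q0) ∪ D.rows x'.2 := by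
        rw [rows_union]
        ext l
        simp only [mem_union]
        tauto
      rw [s1]
      ring
    simp only [e3]
    rw [sum_comm]
    exact sum_congr rfl fun y _ => by rw [mul_sum]
  set M2 := ∑ y, f y * (D.wt θ Q0 *
    ∑ y', f y' * ℓ (y'.1 ∪ (y.1 ∪ ra D y.2 ∪ D.rows Q0) ∪ ra D y'.2)) with hM2
  have h2 : |M1 - M2| ≤ B * F1 * F1 := by
    rw [e2, hM2, ← sum_sub_distrib]
    nth_rewrite 2 [hF1]
    rw [mul_sum]
    refine (abs_sum_le_sum_abs _ _).trans (sum_le_sum fun y _ => ?_)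
    by_cases h0 : f y = 0
    · rw [h0]; simp
    obtain ⟨P, hP, himg⟩ := fv_ne h0
    have hyc : y.2.card ≤ t := by
      rw [← himg]; exact card_image_le.trans hP.1.2.1
    have c1 := card_union_le (y.1 ∪ ra D y.2) (D.rows Q0)
    have c2 := card_union_le y.1 (ra D y.2)
    have c3 := ra_card D y.2
    have c4 := rows_card D Q0
    have c5 : y.1.card ≤ 2 * d := hP.1.1
    have h2 := one_side_est hm hN hθ hδ hδ1 hT htd v hv hinv
      (y.1 ∪ ra D y.2 ∪ D.rows Q0) (by omega) Q0 (Subset.refl _) hQ0 (by omega)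
    rw [← mul_sub, abs_mul, mul_comm]
    exact mul_le_mul_of_nonneg_right h2 (abs_nonneg _)
  have h3 : 0 ≤ M2 := by
    have e4 : M2 = D.wt θ Q0 * ∑ y, ∑ y', f y * f y' *
        ℓ ((y.1 ∪ ra D y.2 ∪ D.rows Q0) ∪ (y'.1 ∪ ra D y'.2 ∪ D.rows Q0)) := by
      rw [hM2, mul_sum]
      refine sum_congr rfl fun y _ => ?_
      rw [mul_sum, mul_sum, mul_sum]
      refine sum_congr rfl fun y' _ => ?_
      have s1 : y'.1 ∪ (y.1 ∪ ra D y.2 ∪ D.rows Q0) ∪ ra D y'.2 =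
          (y.1 ∪ ra D y.2 ∪ D.rows Q0) ∪ (y'.1 ∪ ra D y'.2 ∪ D.rows Q0) := by
        ext l
        simp only [mem_union]
        tauto
      rw [s1]
      ring
    rw [e4]
    refine mul_nonneg hw0 (psd_push hm
      (fun y : Finset (U × Bool) × Finset L => y.1 ∪ ra D y.2 ∪ D.rows Q0) f fun y hy => ?_)
    obtain ⟨P, hP, himg⟩ := fv_ne hy
    have hyc : y.2.card ≤ t := by
      rw [← himg]; exact card_image_le.trans hP.1.2.1
    have c1 := card_union_le (y.1 ∪ ra D y.2) (D.rows Q0)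
    have c2 := card_union_le y.1 (ra D y.2)
    have c3 := ra_card D y.2
    have c4 := rows_card D Q0
    have c5 : y.1.card ≤ 2 * d := hP.1.1
    show (y.1 ∪ ra D y.2 ∪ D.rows Q0).card ≤ N
    omega
  -- norms
  set s := Real.sqrt (∑ x, v x ^ 2) with hs
  have hsum0 : 0 ≤ ∑ x, v x ^ 2 := sum_nonneg fun _ _ => sq_nonneg _
  have hs0 : 0 ≤ s := Real.sqrt_nonneg _
  have hss : s * s = ∑ x, v x ^ 2 := Real.mul_self_sqrt hsum0
  have hvs : ∀ x, |v x| ≤ s := by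
    intro x
    rw [hs]
    apply Real.abs_le_sqrt
    exact single_le_sum (s := (univ : Finset (Ix U L R))) (f := fun i => v i ^ 2)
      (fun i _ => sq_nonneg (v i)) (mem_univ x)
  have hfs : ∀ y, |f y| ≤ s := fv_abs hvs
  have hsv : ∑ x', |v x'| ≤ Fintype.card (Ix U L R) * s := by
    have := sum_le_card_nsmul (univ : Finset (Ix U L R)) (fun x => |v x|) s fun x _ => hvs x
    rwa [nsmul_eq_mul, card_univ] at this
  have hsf : F1 ≤ Fintype.card (Finset (U × Bool) × Finset L) * s := by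
    have := sum_le_card_nsmul (univ : Finset (Finset (U × Bool) × Finset L)) (fun x => |f x|) s
      fun x _ => hfs x
    rwa [nsmul_eq_mul, card_univ] at this
  set c1 : ℝ := (Fintype.card (Ix U L R) : ℝ) with hc1
  set c2 : ℝ := (Fintype.card (Finset (U × Bool) × Finset L) : ℝ) with hc2
  have hc10 : 0 ≤ c1 := Nat.cast_nonneg _
  have hc20 : 0 ≤ c2 := Nat.cast_nonneg _
  have hv0 : 0 ≤ ∑ x', |v x'| := sum_nonneg fun _ _ => abs_nonneg _
  have h4 : B * F1 * ∑ x', |v x'| ≤ B * (c2 * s) * (c1 * s) := by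
    gcongr
  have h5 : B * F1 * F1 ≤ B * (c2 * s) * (c2 * s) := by
    gcongr
  have h6 := (abs_le.1 h1).1
  have h7 := (abs_le.1 h2).1
  have h8 : B * (c2 * c1 + c2 ^ 2) * ∑ x, v x ^ 2 =
      B * (c2 * s) * (c1 * s) + B * (c2 * s) * (c2 * s) := by
    rw [← hss]; ring
  rw [h8]
  linarith

end Pool.Agent.T9h46.MB
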