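import Pool.Agent.T9h46.MB.E

/-!
# The induction
-/

set_option autoImplicit false
set_option linter.unusedSectionVars false

namespace Pool.Agent.T9h46.MB

open Pool.Agent.T9h19.MB Finset

variable {U L R J : Type} [Fintype U] [DecidableEq U] [Fintype L] [DecidableEq L]
  [Fintype R] [DecidableEq R] [Fintype J] [DecidableEq J]

/-- The statement of the spectral lemma. -/
def Spectral : Prop :=
  ∀ {ι : Type} [Fintype ι] [DecidableEq ι] (M : ι → ι → ℝ) (_ : ∀ i j, M i j = M j i)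
    {K : Type} [Fintype K] (τ : K → Equiv.Perm ι) (_ : ∀ k i, τ k (τ k i) = i)
    (_ : ∀ k i j, M (τ k i) (τ k j) = M i j)
    (_ : ∀ v : ι → ℝ, (∀ k i, v (τ k i) = v i) → 0 ≤ ∑ i, ∑ j, v i * v j * M i j)
    (_ : ∀ k, ∀ v : ι → ℝ,
      0 ≤ ∑ i, ∑ j, (v i - v (τ k i)) * (v j - v (τ k j)) * M i j)
    (v : ι → ℝ), 0 ≤ ∑ i, ∑ j, v i * v j * M i j

open scoped Classical in
theorem quad_eq (D : Dat U L R J) (θ : J → ℝ) (ℓ : Finset (U × Bool) → ℝ) (d t : ℕ)
    (Q0 : Finset (L × R)) (ε : ℝ) (v : Ix U L R → ℝ) :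
    ∑ i, ∑ j, v i * v j * ((if Zt D d t Q0 i ∧ Zt D d t Q0 j then
      G D θ ℓ (i.1 ∪ j.1) (i.2 ∪ j.2 ∪ Q0) else 0) + if i = j then ε else 0) =
    Fm D θ ℓ Q0 (fun x => if Zt D d t Q0 x then v x else 0) + ε * ∑ x, v x ^ 2 := by
  unfold Fm
  rw [mul_sum, ← sum_add_distrib]
  refine sum_congr rfl fun i _ => ?_
  have h1 : ∀ j, v i * v j * ((if Zt D d t Q0 i ∧ Zt D d t Q0 j then
      G D θ ℓ (i.1 ∪ j.1) (i.2 ∪ j.2 ∪ Q0) else 0) + if i = j then ε else 0) =
      (if Zt D d t Q0 i then v i else 0) * (if Zt D d t Q0 j then v j else 0) *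
        G D θ ℓ (i.1 ∪ j.1) (i.2 ∪ j.2 ∪ Q0) + if i = j then v i * v j * ε else 0 := by
    intro j
    by_cases hi : Zt D d t Q0 i <;> by_cases hj : Zt D d t Q0 j <;> by_cases hij : i = j <;>
      simp [hi, hj, hij] <;> ring
  rw [sum_congr rfl fun j _ => h1 j, sum_add_distrib, sum_ite_eq, if_pos (mem_univ _)]
  congr 1
  ring

theorem main_ge (hsp : Spectral) {D : Dat U L R J} {θ : J → ℝ} {ℓ : Finset (U × Bool) → ℝ}
    {N d : ℕ} {δ : ℝ} (hm : Mom D θ N ℓ) (hN : 20 * (d + 1) ≤ N)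
    (hθ : ∀ j, ((2 * d + 2 : ℕ) : ℝ) + 1 ≤ θ j)
    (hδ : 0 ≤ δ) (hδ1 : δ ≤ 1) (hT : ∀ j, |(D.cnt j : ℝ) - θ j| ≤ δ) :
    ∀ t ≤ d, ∀ Q0 : Finset (L × R), (∀ q ∈ Q0, D.ok q.1 q.2) → Q0.card + 2 * t ≤ 2 * d →
      ∀ c : Ix U L R → ℝ, (∀ z, c z ≠ 0 → Zt D d t Q0 z) →
        0 ≤ Fm D θ ℓ Q0 c + δ * 2 ^ d *
          (Fintype.card (Finset (U × Bool) × Finset L) * Fintype.card (Ix U L R) +
            Fintype.card (Finset (U × Bool) × Finset L) ^ 2) *
          (Fintype.card L ^ 2 * Fintype.card (Ix U L R) + 1) ^ t * ∑ z, c z ^ 2 := by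
  classical
  set ε0 : ℝ := δ * 2 ^ d *
    (Fintype.card (Finset (U × Bool) × Finset L) * Fintype.card (Ix U L R) +
      Fintype.card (Finset (U × Bool) × Finset L) ^ 2) with hε0
  set κ : ℝ := Fintype.card L ^ 2 * Fintype.card (Ix U L R) with hκ
  have hε00 : 0 ≤ ε0 := by positivity
  have hκ0 : 0 ≤ κ := by positivity
  intro t
  induction t with
  | zero =>
    intro _ Q0 hQ0 hcard c hc
    have h1 := inv_ge (t := 0) hm hN hθ hδ hδ1 hT (by omega) Q0 hQ0 hcard c hc (by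
      intro b b' _ x
      by_cases hx : x.2 = ∅
      · have : sw b b' x.2 = x.2 := by
          apply sw_fix <;> (rw [hx]; simp)
        rw [this]
      · have h2 : ∀ y : Ix U L R, y.2 ≠ ∅ → c y = 0 := by
          intro y hy
          by_contra hne
          have := (hc y hne).2.1
          exact hy (card_eq_zero.1 (by omega))
        rw [h2 x hx, h2]
        show sw b b' x.2 ≠ ∅
        intro h
        apply hx
        rw [← card_eq_zero, ← sw_card b b', h, card_empty])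
    rw [pow_zero, mul_one]
    exact h1
  | succ t ih =>
    intro htd Q0 hQ0 hcard c hc
    have ih' := ih (by omega)
    set ε := ε0 * (κ + 1) ^ (t + 1) with hε
    have hε_ge : ε0 ≤ ε := by
      rw [hε]
      exact le_mul_of_one_le_right hε00 (one_le_pow₀ (by linarith))
    have hεt0 : 0 ≤ ε0 * (κ + 1) ^ t := by positivity
    have hε_ge2 : ε0 * (κ + 1) ^ t * κ ≤ ε := by
      have h1 : ε0 * (κ + 1) ^ t * κ ≤ ε0 * (κ + 1) ^ t * (κ + 1) :=
        mul_le_mul_of_nonneg_left (by linarith) hεt0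
      refine h1.trans (le_of_eq ?_)
      rw [hε, pow_succ]
      ring
    have hε_nn : 0 ≤ ε := hε00.trans hε_ge
    let M : Ix U L R → Ix U L R → ℝ := fun i j =>
      (if Zt D d (t + 1) Q0 i ∧ Zt D d (t + 1) Q0 j then
        G D θ ℓ (i.1 ∪ j.1) (i.2 ∪ j.2 ∪ Q0) else 0) + if i = j then ε else 0
    let τ : R × R → Equiv.Perm (Ix U L R) := fun k =>
      if Gd D Q0 k.1 k.2 then Equiv.prodCongr (Equiv.refl _) (sw k.1 k.2) else 1
    have hτ1 : ∀ k : R × R, Gd D Q0 k.1 k.2 → ∀ x, τ k x = (x.1, sw k.1 k.2 x.2) := by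
      intro k hk x
      show (if Gd D Q0 k.1 k.2 then Equiv.prodCongr (Equiv.refl _) (sw k.1 k.2) else 1) x = _
      rw [if_pos hk]
      rfl
    have hτ2 : ∀ k : R × R, ¬ Gd D Q0 k.1 k.2 → ∀ x, τ k x = x := by
      intro k hk x
      show (if Gd D Q0 k.1 k.2 then Equiv.prodCongr (Equiv.refl _) (sw k.1 k.2) else 1) x = _
      rw [if_neg hk]
      rfl
    have key : ∀ v : Ix U L R → ℝ, ∑ i, ∑ j, v i * v j * M i j =
        Fm D θ ℓ Q0 (fun x => if Zt D d (t + 1) Q0 x then v x else 0) + ε * ∑ x, v x ^ 2 :=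
      fun v => quad_eq D θ ℓ d (t + 1) Q0 ε v
    have hsq : ∀ v : Ix U L R → ℝ, ∑ x, (if Zt D d (t + 1) Q0 x then v x else 0) ^ 2 ≤
        ∑ x, v x ^ 2 := by
      intro v
      refine sum_le_sum fun x _ => ?_
      split_ifs
      · exact le_rfl
      · rw [zero_pow (by norm_num)]; exact sq_nonneg _
    have hfin := hsp M ?_ τ ?_ ?_ ?_ ?_ c
    · rw [key c] at hfin
      have hcc : (fun x => if Zt D d (t + 1) Q0 x then c x else 0) = c := by
        funext x
        split_ifs with h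
        · rfl
        · by_contra hne
          exact h (hc x (Ne.symm hne))
      rw [hcc] at hfin
      exact hfin
    · intro i j
      have s1 : G D θ ℓ (i.1 ∪ j.1) (i.2 ∪ j.2 ∪ Q0) = G D θ ℓ (j.1 ∪ i.1) (j.2 ∪ i.2 ∪ Q0) := by
        rw [union_comm i.1, union_comm i.2]
      show (if Zt D d (t + 1) Q0 i ∧ Zt D d (t + 1) Q0 j then
        G D θ ℓ (i.1 ∪ j.1) (i.2 ∪ j.2 ∪ Q0) else 0) + (if i = j then ε else 0) =
        (if Zt D d (t + 1) Q0 j ∧ Zt D d (t + 1) Q0 i then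
        G D θ ℓ (j.1 ∪ i.1) (j.2 ∪ i.2 ∪ Q0) else 0) + (if j = i then ε else 0)
      rw [s1]
      congr 1
      · by_cases hi : Zt D d (t + 1) Q0 i <;> by_cases hj : Zt D d (t + 1) Q0 j <;> simp [hi, hj]
      · by_cases h : i = j
        · rw [if_pos h, if_pos h.symm]
        · rw [if_neg h, if_neg (Ne.symm h)]
    · intro k i
      by_cases hk : Gd D Q0 k.1 k.2
      · rw [hτ1 k hk, hτ1 k hk]
        show (i.1, sw k.1 k.2 (sw k.1 k.2 i.2)) = i
        rw [sw_sw]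
      · rw [hτ2 k hk, hτ2 k hk]
    · intro k i j
      by_cases hk : Gd D Q0 k.1 k.2
      · have e1 : (τ k i = τ k j) ↔ i = j := (τ k).injective.eq_iff
        show (if Zt D d (t + 1) Q0 (τ k i) ∧ Zt D d (t + 1) Q0 (τ k j) then
          G D θ ℓ ((τ k i).1 ∪ (τ k j).1) ((τ k i).2 ∪ (τ k j).2 ∪ Q0) else 0) +
          (if τ k i = τ k j then ε else 0) = _
        simp only [e1]
        rw [hτ1 k hk, hτ1 k hk]
        show (if Zt D d (t + 1) Q0 (i.1, sw k.1 k.2 i.2) ∧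
          Zt D d (t + 1) Q0 (j.1, sw k.1 k.2 j.2) then
          G D θ ℓ (i.1 ∪ j.1) (sw k.1 k.2 i.2 ∪ sw k.1 k.2 j.2 ∪ Q0) else 0) +
          (if i = j then ε else 0) = _
        rw [sw_G θ ℓ hk]
        simp only [sw_Zt_iff hk]
        rfl
      · rw [hτ2 k hk, hτ2 k hk]
    · intro v hv
      rw [key v]
      have h1 := inv_ge (t := t + 1) hm hN hθ hδ hδ1 hT htd Q0 hQ0 hcard
        (fun x => if Zt D d (t + 1) Q0 x then v x else 0) (by
          intro z hz
          by_contra h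
          exact hz (if_neg h)) (by
          intro b b' hg x
          show (if Zt D d (t + 1) Q0 (x.1, sw b b' x.2) then v (x.1, sw b b' x.2) else 0) =
            if Zt D d (t + 1) Q0 x then v x else 0
          have h2 := hv (b, b') x
          rw [hτ1 (b, b') hg] at h2
          simp only [sw_Zt_iff hg]
          rw [h2])
      have h3 := mul_le_mul_of_nonneg_left (hsq v) hε00
      have h4 : ε0 * ∑ x, v x ^ 2 ≤ ε * ∑ x, v x ^ 2 :=
        mul_le_mul_of_nonneg_right hε_ge (sum_nonneg fun _ _ => sq_nonneg _)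
      linarith
    · intro k v
      rw [key (fun i => v i - v (τ k i))]
      by_cases hk : Gd D Q0 k.1 k.2
      · have h1 := anti_ge hm hN hθ t Q0 hQ0 hcard (ε0 * (κ + 1) ^ t) hεt0 ih' k.1 k.2 hk
          (fun x => if Zt D d (t + 1) Q0 x then v x - v (τ k x) else 0) (by
            intro z hz
            by_contra h
            exact hz (if_neg h)) (by
            intro x
            show (if Zt D d (t + 1) Q0 (x.1, sw k.1 k.2 x.2) then
              v (x.1, sw k.1 k.2 x.2) - v (τ k (x.1, sw k.1 k.2 x.2)) else 0) =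
              -(if Zt D d (t + 1) Q0 x then v x - v (τ k x) else 0)
            simp only [sw_Zt_iff hk]
            rw [hτ1 k hk, hτ1 k hk]
            show (if Zt D d (t + 1) Q0 x then v (x.1, sw k.1 k.2 x.2) -
              v (x.1, sw k.1 k.2 (sw k.1 k.2 x.2)) else 0) = _
            rw [sw_sw]
            split_ifs
            · ring
            · ring)
        have h2 := hsq (fun x => v x - v (τ k x))
        have h3 : ε0 * (κ + 1) ^ t * (κ *
            ∑ x, (if Zt D d (t + 1) Q0 x then v x - v (τ k x) else 0) ^ 2) ≤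
            ε * ∑ x, (v x - v (τ k x)) ^ 2 := by
          rw [← mul_assoc]
          exact mul_le_mul hε_ge2 h2 (sum_nonneg fun _ _ => sq_nonneg _) hε_nn
        linarith
      · have h1 : (fun x => if Zt D d (t + 1) Q0 x then v x - v (τ k x) else 0) = fun _ => 0 := by
          funext x
          rw [hτ2 k hk, sub_self, ite_self]
        rw [h1]
        have h2 : Fm D θ ℓ Q0 (fun _ => 0) = 0 := by
          unfold Fm
          simp
        rw [h2, zero_add]
        exact mul_nonneg hε_nn (sum_nonneg fun _ _ => sq_nonneg _)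

theorem card_bounds (d : ℕ) :
    2 ^ d * (Fintype.card (Finset (U × Bool) × Finset L) * Fintype.card (Ix U L R) +
      Fintype.card (Finset (U × Bool) × Finset L) ^ 2) *
      (Fintype.card L ^ 2 * Fintype.card (Ix U L R) + 1) ^ d ≤
      2 ^ (100 * (d + 1) * sz U L R) := by
  set u := Fintype.card U with hu
  set l := Fintype.card L with hl
  set r := Fintype.card R with hr
  set s := sz U L R with hs
  have hs' : s = u + l + r + l * r + 1 := rfl
  have e1 : Fintype.card (Finset (U × Bool) × Finset L) = 2 ^ (2 * u + l) := by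
    rw [Fintype.card_prod, Fintype.card_finset, Fintype.card_finset, Fintype.card_prod,
      Fintype.card_bool, ← pow_add, mul_comm u 2]
  have e2 : Fintype.card (Ix U L R) = 2 ^ (2 * u + l * r) := by
    rw [Fintype.card_prod, Fintype.card_finset, Fintype.card_finset, Fintype.card_prod,
      Fintype.card_prod, Fintype.card_bool, ← pow_add, mul_comm u 2]
  rw [e1, e2]
  have h1 : 2 ^ (2 * u + l) * 2 ^ (2 * u + l * r) + (2 ^ (2 * u + l)) ^ 2 ≤ 2 ^ (4 * s) := by
    have a1 : 2 ^ (2 * u + l) * 2 ^ (2 * u + l * r) ≤ 2 ^ (4 * s - 1) := by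
      rw [← pow_add]
      exact Nat.pow_le_pow_right (by norm_num) (by omega)
    have a2 : (2 ^ (2 * u + l)) ^ 2 ≤ 2 ^ (4 * s - 1) := by
      rw [← pow_mul]
      exact Nat.pow_le_pow_right (by norm_num) (by omega)
    have a3 : 2 ^ (4 * s) = 2 ^ (4 * s - 1) + 2 ^ (4 * s - 1) := by
      have : 4 * s = (4 * s - 1) + 1 := by omega
      conv_lhs => rw [this, pow_succ]
      ring
    omega
  have h2 : l ^ 2 * 2 ^ (2 * u + l * r) + 1 ≤ 2 ^ (2 * s) := by
    have a1 : l ^ 2 ≤ 2 ^ (2 * l) := by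
      rw [mul_comm, pow_mul]
      exact Nat.pow_le_pow_left Nat.lt_two_pow_self.le 2
    have a2 : l ^ 2 * 2 ^ (2 * u + l * r) ≤ 2 ^ (2 * s - 1) := by
      calc l ^ 2 * 2 ^ (2 * u + l * r) ≤ 2 ^ (2 * l) * 2 ^ (2 * u + l * r) :=
            Nat.mul_le_mul_right _ a1
        _ = 2 ^ (2 * l + (2 * u + l * r)) := by rw [← pow_add]
        _ ≤ _ := Nat.pow_le_pow_right (by norm_num) (by omega)
    have a3 : 2 ^ (2 * s) = 2 ^ (2 * s - 1) + 2 ^ (2 * s - 1) := by
      have : 2 * s = (2 * s - 1) + 1 := by omega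
      conv_lhs => rw [this, pow_succ]
      ring
    have a4 : 1 ≤ 2 ^ (2 * s - 1) := Nat.one_le_two_pow
    omega
  calc _ ≤ 2 ^ d * 2 ^ (4 * s) * (2 ^ (2 * s)) ^ d :=
        Nat.mul_le_mul (Nat.mul_le_mul_left _ h1) (Nat.pow_le_pow_left h2 d)
    _ = 2 ^ (d + 4 * s + 2 * s * d) := by rw [← pow_mul, ← pow_add, ← pow_add]
    _ ≤ _ := by
        refine Nat.pow_le_pow_right (by norm_num) ?_
        have : 1 ≤ s := by omega
        nlinarith

theorem gadget_psd_of (hsp : Spectral) (D : Dat U L R J) (θ : J → ℝ)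
    (ℓ : Finset (U × Bool) → ℝ) (N d : ℕ)
    (hN : 20 * (d + 1) ≤ N) (hm : Mom D θ N ℓ) (hθ : ∀ j, (4 * d + 4 : ℝ) ≤ θ j)
    (δ : ℝ) (hδ0 : 0 ≤ δ) (hδ1 : δ ≤ 1) (hT : ∀ j, |(D.cnt j : ℝ) - θ j| ≤ δ)
    (c : Finset (U × Bool) × Finset (L × R) → ℝ)
    (hc : ∀ z, c z ≠ 0 → z.1.card ≤ 2 * d ∧ z.2.card ≤ d ∧ ∀ p ∈ z.2, D.ok p.1 p.2) :
    0 ≤ ∑ z, ∑ z', c z * c z' * (ℓ (z.1 ∪ z'.1 ∪ D.rows (z.2 ∪ z'.2)) * D.wt θ (z.2 ∪ z'.2)) +
      δ * 2 ^ (100 * (d + 1) * sz U L R) * ∑ z, c z ^ 2 := by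
  have hθ' : ∀ j, ((2 * d + 2 : ℕ) : ℝ) + 1 ≤ θ j := by
    intro j
    have := hθ j
    push_cast
    have h0 : (0 : ℝ) ≤ d := Nat.cast_nonneg _
    linarith
  have h1 := main_ge hsp hm hN hθ' hδ0 hδ1 hT d le_rfl ∅ (by simp) (by simp) c (by
    intro z hz
    obtain ⟨a1, a2, a3⟩ := hc z hz
    exact ⟨a1, a2, fun p hp => ⟨a3 p hp, by simp⟩⟩)
  have h2 : Fm D θ ℓ ∅ c = ∑ z, ∑ z', c z * c z' *
      (ℓ (z.1 ∪ z'.1 ∪ D.rows (z.2 ∪ z'.2)) * D.wt θ (z.2 ∪ z'.2)) := by
    unfold Fm G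
    simp only [union_empty]
  rw [h2] at h1
  have h3 : δ * 2 ^ d *
      (Fintype.card (Finset (U × Bool) × Finset L) * Fintype.card (Ix U L R) +
        Fintype.card (Finset (U × Bool) × Finset L) ^ 2) *
      (Fintype.card L ^ 2 * Fintype.card (Ix U L R) + 1) ^ d ≤
      δ * 2 ^ (100 * (d + 1) * sz U L R) := by
    have h4 : ((2 ^ d * (Fintype.card (Finset (U × Bool) × Finset L) * Fintype.card (Ix U L R) +
      Fintype.card (Finset (U × Bool) × Finset L) ^ 2) *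
      (Fintype.card L ^ 2 * Fintype.card (Ix U L R) + 1) ^ d : ℕ) : ℝ) ≤
      ((2 ^ (100 * (d + 1) * sz U L R) : ℕ) : ℝ) := by
      exact_mod_cast card_bounds (U := U) (L := L) (R := R) d
    push_cast at h4
    calc _ = δ * (2 ^ d * (Fintype.card (Finset (U × Bool) × Finset L) *
        Fintype.card (Ix U L R) + Fintype.card (Finset (U × Bool) × Finset L) ^ 2) *
        (Fintype.card L ^ 2 * Fintype.card (Ix U L R) + 1) ^ d) := by ring
      _ ≤ _ := mul_le_mul_of_nonneg_left h4 hδ0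
  have h5 := mul_le_mul_of_nonneg_right h3 (sum_nonneg fun z _ => sq_nonneg (c z) :
    0 ≤ ∑ z, c z ^ 2)
  linarith

end Pool.Agent.T9h46.MB
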